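import Mathlib

/-!
Two-dimensional domination for pairs of down-sets in a `W × H` box: block tables.
-/

namespace DKWTwo

/-- The table `(D, U, X, Y)` is dominated by `A = a` full columns, `B = b` full rows. -/
def Dom1 (W H D U X Y : ℤ) : Prop :=
  ∃ a b : ℤ, 0 ≤ a ∧ a ≤ W ∧ 0 ≤ b ∧ b ≤ H ∧
    a * b ≤ D ∧ (W - a) * (H - b) ≤ U ∧ X ≤ a * (H - b) ∧ Y ≤ (W - a) * b

theorem Dom1.mono {W H D U X Y D' U' X' Y' : ℤ} (h : Dom1 W H D' U' X' Y')
    (hD : D' ≤ D) (hU : U' ≤ U) (hX : X ≤ X') (hY : Y ≤ Y') : Dom1 W H D U X Y := by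
  obtain ⟨a, b, h1, h2, h3, h4, h5, h6, h7, h8⟩ := h
  exact ⟨a, b, h1, h2, h3, h4, by linarith, by linarith, by linarith, by linarith⟩

/-- transposition of the box -/
theorem Dom1.transpose {W H D U X Y : ℤ} (h : Dom1 W H D U X Y) : Dom1 H W D U Y X := by
  obtain ⟨a, b, h1, h2, h3, h4, h5, h6, h7, h8⟩ := h
  refine ⟨b, a, h3, h4, h1, h2, ?_, ?_, ?_, ?_⟩
  · linarith [mul_comm a b]
  · linarith [mul_comm (W - a) (H - b)]
  · linarith [mul_comm (W - a) b]
  · linarith [mul_comm a (H - b)]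

section nodes
variable {W H D U X Y : ℤ} (a b : ℤ)

theorem nodeX (hN : D + U + X + Y = W * H) (ha0 : 0 ≤ a) (haW : a ≤ W) (hb0 : 0 ≤ b) (hbH : b ≤ H)
    (h1 : a * H ≤ D + X) (h2 : D + Y ≤ W * b) (h3 : X ≤ a * (H - b)) : Dom1 W H D U X Y :=
  ⟨a, b, ha0, haW, hb0, hbH, by nlinarith, by nlinarith, h3, by nlinarith⟩

theorem nodeY (hN : D + U + X + Y = W * H) (ha0 : 0 ≤ a) (haW : a ≤ W) (hb0 : 0 ≤ b) (hbH : b ≤ H)
    (h1 : D + X ≤ a * H) (h2 : W * b ≤ D + Y) (h3 : Y ≤ (W - a) * b) : Dom1 W H D U X Y :=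
  ⟨a, b, ha0, haW, hb0, hbH, by nlinarith, by nlinarith, by nlinarith, h3⟩

theorem nodeD (hN : D + U + X + Y = W * H) (ha0 : 0 ≤ a) (haW : a ≤ W) (hb0 : 0 ≤ b) (hbH : b ≤ H)
    (h1 : D + X ≤ a * H) (h2 : D + Y ≤ W * b) (h3 : a * b ≤ D) : Dom1 W H D U X Y :=
  ⟨a, b, ha0, haW, hb0, hbH, h3, by nlinarith, by nlinarith, by nlinarith⟩

theorem nodeU (hN : D + U + X + Y = W * H) (ha0 : 0 ≤ a) (haW : a ≤ W) (hb0 : 0 ≤ b) (hbH : b ≤ H)
    (h1 : a * H ≤ D + X) (h2 : W * b ≤ D + Y) (h3 : (W - a) * (H - b) ≤ U) : Dom1 W H D U X Y :=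
  ⟨a, b, ha0, haW, hb0, hbH, by nlinarith, h3, by nlinarith, by nlinarith⟩

end nodes

/-- The hook lemma, the essential case. -/
theorem hook_L1 (a w c d h b : ℤ) (hc : 1 ≤ c) (hd : 1 ≤ d) (hw : 1 ≤ w) (hh : 1 ≤ h)
    (hca : c < a) (hdb : d < b)
    (b1 : c * (d + h) < w * b) (b2 : d * (w + c) < h * a)
    (hJ : (h + b) * c < a + w + c ∨ d + h + b ≤ (a + w) * d) (hjb : (h + b) * c ≤ b * (a + w + c)) :
    Dom1 (a + w + c) (d + h + b) (a * (h + b) + w * b) (w * d + c * (d + h)) (a * d + c * b)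
      (w * h) := by
  set W := a + w + c with hW
  set H := d + h + b with hH
  have hWpos : 0 < W := by linarith
  have hHpos : 0 < H := by linarith
  set I := (w + c) * b / H with hI
  set J := (h + b) * c / W with hJd
  have hI1 : I * H ≤ (w + c) * b := Int.ediv_mul_le _ hHpos.ne'
  have hI2 : (w + c) * b < (I + 1) * H := by
    have := Int.lt_ediv_add_one_mul_self ((w + c) * b) hHpos
    linarith
  have hJ1 : J * W ≤ (h + b) * c := Int.ediv_mul_le _ hWpos.ne'
  have hJ2 : (h + b) * c < (J + 1) * W := by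
    have := Int.lt_ediv_add_one_mul_self ((h + b) * c) hWpos
    linarith
  have hIc : c ≤ I := by
    rw [hI, Int.le_ediv_iff_mul_le hHpos]
    nlinarith
  have hIwc : I ≤ w + c := by
    by_contra hcon
    push Not at hcon
    have : (w + c + 1) * H ≤ I * H := by nlinarith
    nlinarith
  have hJ0 : 0 ≤ J := Int.ediv_nonneg (by nlinarith) hWpos.le
  have hJb : J ≤ b := by
    by_contra hcon
    push Not at hcon
    have : (b + 1) * W ≤ J * W := by nlinarith
    nlinarith
  have hN : (a * (h + b) + w * b) + (w * d + c * (d + h)) + (a * d + c * b) + (w * h) = W * H := by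
    rw [hW, hH]; ring
  by_cases hX1 : a * d + c * b ≤ (a + I) * (d + J)
  · refine nodeX (a + I) (h + b - J) hN (by linarith) (by linarith) (by linarith) (by linarith) ?_ ?_ ?_
    · rw [hH] at hI1 ⊢; nlinarith
    · rw [hW] at hJ1 ⊢; nlinarith
    · have : H - (h + b - J) = d + J := by rw [hH]; ring
      rw [this]; exact hX1
  · by_cases hU1 : (w + c - I) * (d + J + 1) ≤ w * d + c * (d + h)
    · refine nodeU (a + I) (h + b - J - 1) hN (by linarith) (by linarith) (by linarith) (by linarith) ?_ ?_ ?_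
      · rw [hH] at hI1 ⊢; nlinarith
      · rw [hW] at hJ2 ⊢; nlinarith
      · have e1 : W - (a + I) = w + c - I := by rw [hW]; ring
        have e2 : H - (h + b - J - 1) = d + J + 1 := by rw [hH]; ring
        rw [e1, e2]; exact hU1
    · exfalso
      push Not at hX1 hU1
      have F1 : a * J + d * I + I * J + 1 ≤ b * c := by nlinarith
      have F2 : c * h + I * (d + J + 1) + 1 ≤ (w + c) * (J + 1) := by nlinarith
      -- the key inequality (*)
      have star : h * a * J + b * I * d <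
          I * h * (1 - d) + (J + 1) * I * d + J * (b + h) + (J + 1) * d := by
        have g1 : b * (c * h + I * (d + J + 1) + 1) ≤ b * ((w + c) * (J + 1)) :=
          mul_le_mul_of_nonneg_left F2 (by linarith)
        have g2 : (J + 1) * ((w + c) * b) < (J + 1) * ((I + 1) * H) :=
          mul_lt_mul_of_pos_left hI2 (by linarith)
        have g3 : h * (a * J + d * I + I * J + 1) ≤ h * (b * c) :=
          mul_le_mul_of_nonneg_left F1 (by linarith)
        rw [hH] at g2
        linarith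
      rcases hJ0.eq_or_lt with h0 | hJpos
      · rw [← h0] at star
        have g4 : 0 ≤ I * h * (d - 1) := by
          have : 0 ≤ I * h := mul_nonneg (by linarith) (by linarith)
          exact mul_nonneg this (by linarith)
        have g5 : 2 * (I * d) ≤ b * (I * d) :=
          mul_le_mul_of_nonneg_right (by linarith) (mul_nonneg (by linarith) (by linarith))
        have g6 : d * 1 ≤ d * I := mul_le_mul_of_nonneg_left (by linarith) (by linarith)
        linarith
      · have hJ1' : 1 ≤ J := hJpos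
        have hH' : d + h + b ≤ (a + w) * d := by
          rcases hJ with h' | h'
          · exfalso
            have : 1 * W ≤ J * W := mul_le_mul_of_nonneg_right hJ1' hWpos.le
            linarith
          · exact h'
        have hJcd : J + 1 ≤ c * d := by
          by_contra hcon
          push Not at hcon
          have k1 : c * d ≤ J := by linarith
          have k2 : (c * d) * W ≤ J * W := mul_le_mul_of_nonneg_right k1 hWpos.le
          have k3 : c * (d + h + b) ≤ c * ((a + w) * d) := mul_le_mul_of_nonneg_left hH' (by linarith)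
          have k4 : 1 * 1 ≤ c * d := mul_le_mul hc hd (by norm_num) (by linarith)
          have k5 : 0 ≤ c * d * c := mul_nonneg (by linarith) (by linarith)
          rw [hW] at k2 hJ1
          linarith
        have hb2 : 2 * J + d + 1 ≤ b := by
          by_contra hcon
          push Not at hcon
          have k1 : b ≤ 2 * J + d := by linarith
          have k2 : b * c ≤ (2 * J + d) * c := mul_le_mul_of_nonneg_right k1 (by linarith)
          have k3 : c * J ≤ a * J := mul_le_mul_of_nonneg_right hca.le (by linarith)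
          have k4 : d * c ≤ d * I := mul_le_mul_of_nonneg_left hIc (by linarith)
          have k5 : c * J ≤ I * J := mul_le_mul_of_nonneg_right hIc (by linarith)
          linarith
        set z := I * d with hz
        have hzc : c * d ≤ z := mul_le_mul_of_nonneg_right hIc (by linarith)
        have m1 : (J + 1) * (h * a * J + b * I * d) <
            (J + 1) * (I * h * (1 - d) + (J + 1) * I * d + J * (b + h) + (J + 1) * d) :=
          mul_lt_mul_of_pos_left star (by linarith)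
        have m2 : ((J + 1) * J) * (d * (w + c) + 1) ≤ ((J + 1) * J) * (h * a) :=
          mul_le_mul_of_nonneg_left b2 (by positivity)
        have m3 : (J * d) * (c * h + I * (d + J + 1) + 1) ≤ (J * d) * ((w + c) * (J + 1)) :=
          mul_le_mul_of_nonneg_left F2 (by positivity)
        have m4 : 0 ≤ h * (J * (c * d - (J + 1))) :=
          mul_nonneg (by linarith) (mul_nonneg (by linarith) (by linarith))
        have m5 : 0 ≤ h * ((J + 1) * (I * (d - 1))) :=
          mul_nonneg (by linarith) (mul_nonneg (by linarith) (mul_nonneg (by linarith) (by linarith)))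
        have m6 : (J + 1) * (z - J) * (2 * J + d + 1) ≤ (J + 1) * (z - J) * b :=
          mul_le_mul_of_nonneg_left hb2 (mul_nonneg (by linarith) (by linarith))
        have m7 : 0 ≤ ((J + 1) * (J + d) + J * (d + J + 1)) * (z - (J + 1)) :=
          mul_nonneg (by positivity) (by linarith)
        have m8 : 0 < 2 * J * (J + 1) + J * d := by positivity
        have e1 : b * I * d = b * z := by rw [hz]; ring
        have e2 : (J + 1) * I * d = (J + 1) * z := by rw [hz]; ring
        have e3 : J * d * (c * h + I * (d + J + 1) + 1) =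
            J * (c * d) * h + J * z * (d + J + 1) + J * d := by rw [hz]; ring
        rw [e1, e2] at m1
        rw [e3] at m3
        linarith

/-- complementation -/
theorem Dom1.compl {W H D U X Y : ℤ} (h : Dom1 W H D U X Y) : Dom1 W H U D Y X := by
  obtain ⟨a, b, h1, h2, h3, h4, h5, h6, h7, h8⟩ := h
  refine ⟨W - a, H - b, by linarith, by linarith, by linarith, by linarith, h6, ?_, ?_, ?_⟩
  · have e1 : W - (W - a) = a := by ring
    have e2 : H - (H - b) = b := by ring
    rw [e1, e2]; exact h5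
  · have e2 : H - (H - b) = b := by ring
    rw [e2]; exact h8
  · have e1 : W - (W - a) = a := by ring
    rw [e1]; exact h7

theorem Dom1.congr {W H D U X Y W' H' D' U' X' Y' : ℤ} (h : Dom1 W' H' D' U' X' Y')
    (e1 : W' = W) (e2 : H' = H) (e3 : D' = D) (e4 : U' = U) (e5 : X' = X) (e6 : Y' = Y) :
    Dom1 W H D U X Y := by
  subst e1 e2 e3 e4 e5 e6; exact h

/-- three blocks `X, Y, X`: the easy case with the `Y`-inequality -/
theorem hook_Y (w1 w2 w3 h1 h2 h3 : ℤ) (p1 : 1 ≤ w1) (p2 : 1 ≤ w2) (p3 : 1 ≤ w3)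
    (q1 : 1 ≤ h1) (q2 : 1 ≤ h2) (q3 : 1 ≤ h3)
    (a1 : (w2 + w3) * h3 ≤ w3 * (h1 + h2 + h3)) (a2 : (h2 + h3) * w3 ≤ h3 * (w1 + w2 + w3)) :
    Dom1 (w1 + w2 + w3) (h1 + h2 + h3) (w1 * (h2 + h3) + w2 * h3) (w2 * h1 + w3 * (h1 + h2))
      (w1 * h1 + w3 * h3) (w2 * h2) := by
  refine nodeY (w1 + w3) h2 (by ring) (by linarith) (by linarith) (by linarith) (by linarith) ?_ ?_ ?_
  · linarith
  · linarith
  · have : w1 + w2 + w3 - (w1 + w3) = w2 := by ring
    rw [this]

theorem hook_A (w1 w2 w3 h1 h2 h3 : ℤ) (p1 : 1 ≤ w1) (p2 : 1 ≤ w2) (p3 : 1 ≤ w3)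
    (q1 : 1 ≤ h1) (q2 : 1 ≤ h2) (q3 : 1 ≤ h3)
    (a1 : w3 * (h1 + h2 + h3) ≤ (w2 + w3) * h3) (a2 : h3 ≤ h1) :
    Dom1 (w1 + w2 + w3) (h1 + h2 + h3) (w1 * (h2 + h3) + w2 * h3) (w2 * h1 + w3 * (h1 + h2))
      (w1 * h1 + w3 * h3) (w2 * h2) := by
  refine nodeX (w1 + w3) (h2 + h3) (by ring) (by linarith) (by linarith) (by linarith)
    (by linarith) ?_ ?_ ?_
  · linarith
  · have : 0 ≤ w3 * (h2 + h3) := mul_nonneg (by linarith) (by linarith)
    linarith
  · have e : h1 + h2 + h3 - (h2 + h3) = h1 := by ring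
    rw [e]
    have : w3 * h3 ≤ w3 * h1 := mul_le_mul_of_nonneg_left a2 (by linarith)
    linarith

theorem hook_B (w1 w2 w3 h1 h2 h3 : ℤ) (p1 : 1 ≤ w1) (p2 : 1 ≤ w2) (p3 : 1 ≤ w3)
    (q1 : 1 ≤ h1) (q2 : 1 ≤ h2) (q3 : 1 ≤ h3)
    (a1 : w1 * (h1 + h2 + h3) ≤ (w1 + w2) * h1) (a2 : h1 ≤ h3) :
    Dom1 (h1 + h2 + h3) (w1 + w2 + w3) (w1 * (h2 + h3) + w2 * h3) (w2 * h1 + w3 * (h1 + h2))
      (w1 * h1 + w3 * h3) (w2 * h2) := by
  refine nodeX h3 w2 (by ring) (by linarith) (by linarith) (by linarith)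
    (by linarith) ?_ ?_ ?_
  · have : 0 ≤ w1 * (h1 + h2) := mul_nonneg (by linarith) (by linarith)
    linarith
  · linarith
  · have e : w1 + w2 + w3 - w2 = w1 + w3 := by ring
    rw [e]
    have : w1 * h1 ≤ w1 * h3 := mul_le_mul_of_nonneg_left a2 (by linarith)
    linarith

/-- case (b) of the hook lemma -/
theorem hook_b (w1 w2 w3 h1 h2 h3 : ℤ) (p1 : 1 ≤ w1) (p2 : 1 ≤ w2) (p3 : 1 ≤ w3)
    (q1 : 1 ≤ h1) (q2 : 1 ≤ h2) (q3 : 1 ≤ h3)
    (P1 : w3 * (h1 + h2 + h3) < (w2 + w3) * h3) (P4 : h1 * (w1 + w2 + w3) < (h1 + h2) * w1) :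
    Dom1 (w1 + w2 + w3) (h1 + h2 + h3) (w1 * (h2 + h3) + w2 * h3) (w2 * h1 + w3 * (h1 + h2))
      (w1 * h1 + w3 * h3) (w2 * h2) ∨
    Dom1 (h1 + h2 + h3) (w1 + w2 + w3) (w1 * (h2 + h3) + w2 * h3) (w2 * h1 + w3 * (h1 + h2))
      (w1 * h1 + w3 * h3) (w2 * h2) := by
  by_cases c1 : h3 ≤ h1
  · exact Or.inl (hook_A w1 w2 w3 h1 h2 h3 p1 p2 p3 q1 q2 q3 P1.le c1)
  by_cases c2 : w1 ≤ w3
  · right
    exact (hook_A h3 h2 h1 w3 w2 w1 q3 q2 q1 p3 p2 p1 (by linarith) c2).congr
      (by ring) (by ring) (by ring) (by ring) (by ring) (by ring)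
  push Not at c1 c2
  by_cases c3 : (h2 + h3) * w3 < w1 + w2 + w3 ∨ h1 + h2 + h3 ≤ (w1 + w2) * h1
  · left
    exact (hook_L1 w1 w2 w3 h1 h2 h3 p3 q1 p2 q2 c2 c1 (by linarith) (by linarith) c3 (by
      have : 0 ≤ h3 * w1 := mul_nonneg (by linarith) (by linarith)
      nlinarith)).congr rfl rfl (by ring) (by ring) (by ring) (by ring)
  · right
    push Not at c3
    exact (hook_L1 h3 h2 h1 w3 w2 w1 q1 p3 q2 p2 c1 c2 (by linarith) (by linarith)
      (Or.inl (by linarith [c3.2])) (by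
        have : (h3 + h2 + h1) * 1 ≤ (h3 + h2 + h1) * w1 :=
          mul_le_mul_of_nonneg_left p1 (by linarith)
        linarith [c3.2])).congr
      (by ring) (by ring) (by ring) (by ring) (by ring) (by ring)

/-- three blocks `X, Y, X` with positive sizes -/
theorem three_pos (w1 w2 w3 h1 h2 h3 : ℤ) (p1 : 1 ≤ w1) (p2 : 1 ≤ w2) (p3 : 1 ≤ w3)
    (q1 : 1 ≤ h1) (q2 : 1 ≤ h2) (q3 : 1 ≤ h3) :
    Dom1 (w1 + w2 + w3) (h1 + h2 + h3) (w1 * (h2 + h3) + w2 * h3) (w2 * h1 + w3 * (h1 + h2))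
      (w1 * h1 + w3 * h3) (w2 * h2) ∨
    Dom1 (h1 + h2 + h3) (w1 + w2 + w3) (w1 * (h2 + h3) + w2 * h3) (w2 * h1 + w3 * (h1 + h2))
      (w1 * h1 + w3 * h3) (w2 * h2) := by
  by_cases P1 : w3 * (h1 + h2 + h3) < (w2 + w3) * h3
  · by_cases P4 : h1 * (w1 + w2 + w3) < (h1 + h2) * w1
    · exact hook_b w1 w2 w3 h1 h2 h3 p1 p2 p3 q1 q2 q3 P1 P4
    · by_cases P3 : w1 * (h1 + h2 + h3) < (w1 + w2) * h1
      · rcases le_total h3 h1 with c | c
        · exact Or.inl (hook_A w1 w2 w3 h1 h2 h3 p1 p2 p3 q1 q2 q3 P1.le c)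
        · exact Or.inr (hook_B w1 w2 w3 h1 h2 h3 p1 p2 p3 q1 q2 q3 P3.le c)
      · right
        exact (hook_Y h3 h2 h1 w3 w2 w1 q3 q2 q1 p3 p2 p1 (by linarith) (by linarith)).congr
          (by ring) (by ring) (by ring) (by ring) (by ring) (by ring)
  · by_cases P2 : h3 * (w1 + w2 + w3) < (h2 + h3) * w3
    · by_cases P3 : w1 * (h1 + h2 + h3) < (w1 + w2) * h1
      · -- case (c): complement of case (b)
        rcases hook_b w3 w2 w1 h3 h2 h1 p3 p2 p1 q3 q2 q1 (by linarith) (by linarith) with h | h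
        · right
          exact (h.compl.transpose).congr (by ring) (by ring) (by ring) (by ring) (by ring) (by ring)
        · left
          exact (h.compl.transpose).congr (by ring) (by ring) (by ring) (by ring) (by ring) (by ring)
      · by_cases P4 : h1 * (w1 + w2 + w3) < (h1 + h2) * w1
        · rcases le_total w1 w3 with c | c
          · right
            exact (hook_A h3 h2 h1 w3 w2 w1 q3 q2 q1 p3 p2 p1 (by linarith) c).congr
              (by ring) (by ring) (by ring) (by ring) (by ring) (by ring)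
          · left
            exact (hook_B h3 h2 h1 w3 w2 w1 q3 q2 q1 p3 p2 p1 (by linarith) c).congr
              (by ring) (by ring) (by ring) (by ring) (by ring) (by ring)
        · right
          exact (hook_Y h3 h2 h1 w3 w2 w1 q3 q2 q1 p3 p2 p1 (by linarith) (by linarith)).congr
            (by ring) (by ring) (by ring) (by ring) (by ring) (by ring)
    · left
      exact hook_Y w1 w2 w3 h1 h2 h3 p1 p2 p3 q1 q2 q3 (by linarith) (by linarith)

end DKWTwo
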