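import Mathlib

/-!
Daykin–Kleitman: compression of two arbitrary sets in a product of chains to order ideals.
-/

open Finset
open scoped FinsetFamily

namespace DKW

variable {n : ℕ} {k : Fin n → ℕ}

/-- the product of the chains `Fin (k i)` -/
abbrev Box (k : Fin n → ℕ) : Type := (i : Fin n) → Fin (k i)

/-- the line through `x` in direction `i`, restricted to `A` -/
def line (A : Finset (Box k)) (i : Fin n) (x : Box k) : Finset (Fin (k i)) :=
  univ.filter (fun t => Function.update x i t ∈ A)

/-- push down in direction `i` -/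
def push (A : Finset (Box k)) (i : Fin n) : Finset (Box k) :=
  univ.filter (fun x => (x i : ℕ) < #(line A i x))

theorem mem_line {A : Finset (Box k)} {i : Fin n} {x : Box k} {t : Fin (k i)} :
    t ∈ line A i x ↔ Function.update x i t ∈ A := by simp [line]

theorem mem_push {A : Finset (Box k)} {i : Fin n} {x : Box k} :
    x ∈ push A i ↔ (x i : ℕ) < #(line A i x) := by simp [push]

theorem line_update (A : Finset (Box k)) (i : Fin n) (x : Box k) (t : Fin (k i)) :
    line A i (Function.update x i t) = line A i x := by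
  ext s; simp [mem_line]

theorem mem_line_self {A : Finset (Box k)} {i : Fin n} {x : Box k} :
    x i ∈ line A i x ↔ x ∈ A := by
  rw [mem_line, Function.update_eq_self]

/-- fibrewise count: two sets with lines of the same cardinality have the same cardinality -/
theorem card_eq_of_line {A B : Finset (Box k)} {i : Fin n}
    (h : ∀ x, #(line A i x) = #(line B i x)) : #A = #B := by
  classical
  -- count through the sum over all points of the line cardinalities
  have key : ∀ C : Finset (Box k), k i * #C = ∑ x : Box k, #(line C i x) := by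
    intro C
    have h1 : ∑ x : Box k, #(line C i x) =
        ∑ x : Box k, ∑ t : Fin (k i), if Function.update x i t ∈ C then 1 else 0 := by
      refine Finset.sum_congr rfl (fun x _ => ?_)
      rw [line, Finset.card_filter]
    rw [h1]
    -- exchange: (x, t) ↦ (update x i t, x i)
    have h2 : ∑ x : Box k, ∑ t : Fin (k i), (if Function.update x i t ∈ C then 1 else 0) =
        ∑ x : Box k, ∑ _t : Fin (k i), (if x ∈ C then 1 else 0) := by
      rw [← Finset.sum_product', ← Finset.sum_product']
      refine Finset.sum_bij' (fun p _ => (Function.update p.1 i p.2, p.1 i))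
        (fun p _ => (Function.update p.1 i p.2, p.1 i)) ?_ ?_ ?_ ?_ ?_
      · intro p _; simp
      · intro p _; simp
      · intro p _; simp
      · intro p _; simp
      · intro p _; simp
    rw [h2]
    simp [Finset.sum_ite_mem, mul_comm]
  rcases Nat.eq_zero_or_pos (k i) with h0 | hpos
  · have : IsEmpty (Box k) := by
      refine ⟨fun x => ?_⟩
      have := (x i).isLt
      omega
    rw [Finset.eq_empty_of_isEmpty A, Finset.eq_empty_of_isEmpty B]
  · have := key A
    rw [Finset.sum_congr rfl (fun x _ => h x), ← key B] at this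
    exact Nat.eq_of_mul_eq_mul_left hpos this

theorem card_line_push (A : Finset (Box k)) (i : Fin n) (x : Box k) :
    #(line (push A i) i x) = #(line A i x) := by
  have h1 : line (push A i) i x = univ.filter (fun t : Fin (k i) => (t : ℕ) < #(line A i x)) := by
    ext t
    rw [mem_line, mem_push, line_update, Function.update_self]
    simp
  rw [h1]
  have h2 : #(line A i x) ≤ k i := by
    have := Finset.card_le_univ (line A i x)
    simpa using this
  rw [Fin.card_filter_val_lt]
  omega

theorem card_push (A : Finset (Box k)) (i : Fin n) : #(push A i) = #A :=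
  card_eq_of_line (card_line_push A i)


theorem sum_line (C : Finset (Box k)) (i : Fin n) (g : Box k → ℕ) :
    k i * ∑ x ∈ C, g x = ∑ x : Box k, ∑ t ∈ line C i x, g (Function.update x i t) := by
  classical
  have h1 : ∑ x : Box k, ∑ t ∈ line C i x, g (Function.update x i t) =
      ∑ x : Box k, ∑ t : Fin (k i),
        if Function.update x i t ∈ C then g (Function.update x i t) else 0 := by
    refine Finset.sum_congr rfl (fun x _ => ?_)
    rw [line, Finset.sum_filter]
  rw [h1]
  have h2 : ∑ x : Box k, ∑ t : Fin (k i),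
      (if Function.update x i t ∈ C then g (Function.update x i t) else 0) =
      ∑ x : Box k, ∑ _t : Fin (k i), (if x ∈ C then g x else 0) := by
    rw [← Finset.sum_product', ← Finset.sum_product']
    refine Finset.sum_bij' (fun p _ => (Function.update p.1 i p.2, p.1 i))
      (fun p _ => (Function.update p.1 i p.2, p.1 i)) ?_ ?_ ?_ ?_ ?_
    · intro p _; simp
    · intro p _; simp
    · intro p _; simp
    · intro p _; simp
    · intro p _; simp
  rw [h2]
  simp only [Finset.sum_const, Finset.card_univ, Fintype.card_fin, smul_eq_mul]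
  rw [← Finset.mul_sum, Finset.sum_ite_mem, Finset.univ_inter]

/-- initial segments minimise the sum -/
theorem sum_range_card_le (S : Finset ℕ) : ∑ t ∈ range #S, t ≤ ∑ t ∈ S, t := by
  classical
  have e1 : ∑ t ∈ range #S, t = ∑ t ∈ range #S ∩ S, t + ∑ t ∈ range #S \ S, t :=
    (Finset.sum_inter_add_sum_sdiff _ _ _).symm
  have e2 : ∑ t ∈ S, t = ∑ t ∈ S ∩ range #S, t + ∑ t ∈ S \ range #S, t :=
    (Finset.sum_inter_add_sum_sdiff _ _ _).symm
  have hc : #(range #S \ S) = #(S \ range #S) := by
    have h1 := Finset.card_inter_add_card_sdiff (range #S) S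
    have h2 := Finset.card_inter_add_card_sdiff S (range #S)
    rw [Finset.inter_comm, Finset.card_range] at h1
    omega
  have h3 : ∑ t ∈ range #S \ S, t ≤ #(range #S \ S) * #S := by
    rw [← smul_eq_mul]
    refine Finset.sum_le_card_nsmul _ _ _ (fun t ht => ?_)
    exact (Finset.mem_range.1 (Finset.mem_sdiff.1 ht).1).le
  have h4 : #(S \ range #S) * #S ≤ ∑ t ∈ S \ range #S, t := by
    rw [← smul_eq_mul]
    refine Finset.card_nsmul_le_sum _ _ _ (fun t ht => ?_)
    have := (Finset.mem_sdiff.1 ht).2
    simpa using this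
  rw [e1, e2, Finset.inter_comm]
  rw [hc] at h3
  omega

theorem sum_range_card_lt (S : Finset ℕ) (h : S ≠ range #S) : ∑ t ∈ range #S, t < ∑ t ∈ S, t := by
  classical
  have e1 : ∑ t ∈ range #S, t = ∑ t ∈ range #S ∩ S, t + ∑ t ∈ range #S \ S, t :=
    (Finset.sum_inter_add_sum_sdiff _ _ _).symm
  have e2 : ∑ t ∈ S, t = ∑ t ∈ S ∩ range #S, t + ∑ t ∈ S \ range #S, t :=
    (Finset.sum_inter_add_sum_sdiff _ _ _).symm
  have hc : #(range #S \ S) = #(S \ range #S) := by
    have h1 := Finset.card_inter_add_card_sdiff (range #S) S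
    have h2 := Finset.card_inter_add_card_sdiff S (range #S)
    rw [Finset.inter_comm, Finset.card_range] at h1
    omega
  have hne : 0 < #(range #S \ S) := by
    rw [Finset.card_pos, Finset.nonempty_iff_ne_empty]
    intro h0
    rw [Finset.sdiff_eq_empty_iff_subset] at h0
    exact h (Finset.eq_of_subset_of_card_le h0 (by simp)).symm
  have h3 : ∑ t ∈ range #S \ S, t < #(range #S \ S) * #S := by
    have hne' : (range #S \ S).Nonempty := Finset.card_pos.1 hne
    have := Finset.sum_lt_sum_of_nonempty (f := fun t => t) (g := fun _ => #S) hne'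
      (fun t ht => Finset.mem_range.1 (Finset.mem_sdiff.1 ht).1)
    rwa [Finset.sum_const, smul_eq_mul] at this
  have h4 : #(S \ range #S) * #S ≤ ∑ t ∈ S \ range #S, t := by
    rw [← smul_eq_mul]
    refine Finset.card_nsmul_le_sum _ _ _ (fun t ht => ?_)
    have := (Finset.mem_sdiff.1 ht).2
    simpa using this
  rw [e1, e2, Finset.inter_comm]
  rw [hc] at h3
  omega


/-- total height of a set -/
def wt (C : Finset (Box k)) : ℕ := ∑ x ∈ C, ∑ j, (x j : ℕ)

theorem sum_update (x : Box k) (i : Fin n) (t : Fin (k i)) :
    ∑ j, (Function.update x i t j : ℕ) = (t : ℕ) + ∑ j ∈ univ.erase i, (x j : ℕ) := by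
  rw [← Finset.add_sum_erase _ _ (Finset.mem_univ i), Function.update_self]
  congr 1
  refine Finset.sum_congr rfl (fun j hj => ?_)
  rw [Function.update_of_ne (Finset.ne_of_mem_erase hj)]

theorem mul_wt (C : Finset (Box k)) (i : Fin n) :
    k i * wt C = ∑ x : Box k, (∑ t ∈ line C i x, (t : ℕ) +
      #(line C i x) * ∑ j ∈ univ.erase i, (x j : ℕ)) := by
  rw [wt, sum_line]
  refine Finset.sum_congr rfl (fun x _ => ?_)
  rw [Finset.sum_congr rfl (fun t _ => sum_update x i t), Finset.sum_add_distrib,
    Finset.sum_const, smul_eq_mul]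

/-- the line as a set of naturals -/
def lineN (C : Finset (Box k)) (i : Fin n) (x : Box k) : Finset ℕ :=
  (line C i x).map Fin.valEmbedding

theorem card_lineN (C : Finset (Box k)) (i : Fin n) (x : Box k) :
    #(lineN C i x) = #(line C i x) := Finset.card_map _

theorem sum_lineN (C : Finset (Box k)) (i : Fin n) (x : Box k) :
    ∑ t ∈ lineN C i x, t = ∑ t ∈ line C i x, (t : ℕ) := by
  rw [lineN, Finset.sum_map]; rfl

theorem lineN_push (A : Finset (Box k)) (i : Fin n) (x : Box k) :
    lineN (push A i) i x = range #(line A i x) := by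
  have h1 : line (push A i) i x = univ.filter (fun t : Fin (k i) => (t : ℕ) < #(line A i x)) := by
    ext t
    rw [mem_line, mem_push, line_update, Function.update_self]
    simp
  have h2 : #(line A i x) ≤ k i := by
    have := Finset.card_le_univ (line A i x)
    simpa using this
  ext t
  rw [lineN, h1]
  simp only [Finset.mem_map, Finset.mem_filter, Finset.mem_univ, true_and, Fin.valEmbedding_apply,
    Finset.mem_range]
  constructor
  · rintro ⟨s, hs, rfl⟩; exact hs
  · intro ht; exact ⟨⟨t, by omega⟩, ht, rfl⟩

theorem wt_push_le (A : Finset (Box k)) (i : Fin n) (hpos : 0 < k i) : wt (push A i) ≤ wt A := by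
  refine Nat.le_of_mul_le_mul_left ?_ hpos
  rw [mul_wt, mul_wt]
  refine Finset.sum_le_sum (fun x _ => ?_)
  rw [card_line_push, ← sum_lineN, ← sum_lineN, lineN_push, ← card_lineN A]
  exact Nat.add_le_add_right (sum_range_card_le _) _

theorem wt_push_lt (A : Finset (Box k)) (i : Fin n) (x : Box k)
    (hx : lineN A i x ≠ range #(line A i x)) : wt (push A i) < wt A := by
  refine Nat.lt_of_mul_lt_mul_left (a := k i) ?_
  rw [mul_wt, mul_wt]
  refine Finset.sum_lt_sum (fun y _ => ?_) ⟨x, Finset.mem_univ x, ?_⟩
  · rw [card_line_push, ← sum_lineN, ← sum_lineN, lineN_push, ← card_lineN A]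
    exact Nat.add_le_add_right (sum_range_card_le _) _
  · rw [card_line_push, ← sum_lineN, ← sum_lineN, lineN_push, ← card_lineN A]
    rw [← card_lineN A] at hx
    exact Nat.add_lt_add_right (sum_range_card_lt _ hx) _

/-- `A` is down-closed in direction `i` -/
def IsDown (A : Finset (Box k)) : Prop := ∀ x ∈ A, ∀ y, y ≤ x → y ∈ A

theorem isDown_of_lines (A : Finset (Box k))
    (h : ∀ i x, lineN A i x = range #(line A i x)) : IsDown A := by
  classical
  have step : ∀ i x, x ∈ A → ∀ t : Fin (k i), t ≤ x i → Function.update x i t ∈ A := by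
    intro i x hx t ht
    have h1 : (x i : ℕ) ∈ lineN A i x := by
      rw [lineN, Finset.mem_map]
      exact ⟨x i, mem_line_self.2 hx, rfl⟩
    rw [h i x, Finset.mem_range] at h1
    have h2 : (t : ℕ) ∈ lineN A i x := by
      rw [h i x, Finset.mem_range]
      exact lt_of_le_of_lt ht h1
    rw [lineN, Finset.mem_map] at h2
    obtain ⟨s, hs, hst⟩ := h2
    have : s = t := Fin.ext hst
    rw [this] at hs
    exact mem_line.1 hs
  intro x hx y hy
  have key : ∀ s : Finset (Fin n), s.piecewise y x ∈ A := by
    intro s
    induction s using Finset.induction_on with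
    | empty => simpa using hx
    | insert i s his ih =>
      rw [Finset.piecewise_insert]
      refine step i _ ih _ ?_
      rw [Finset.piecewise_eq_of_notMem _ _ _ his]
      exact hy i
  have := key univ
  simpa using this

/-- meets of two subsets of a chain -/
theorem min_card_le_card_infs {m : ℕ} (S T : Finset (Fin m)) : min #S #T ≤ #(S ⊼ T) := by
  rcases S.eq_empty_or_nonempty with rfl | hS
  · simp
  rcases T.eq_empty_or_nonempty with rfl | hT
  · simp
  rcases le_total (S.max' hS) (T.max' hT) with h | h
  · refine (min_le_left _ _).trans (Finset.card_le_card (fun s hs => ?_))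
    rw [Finset.mem_infs]
    exact ⟨s, hs, T.max' hT, T.max'_mem hT, inf_eq_left.2 ((S.le_max' s hs).trans h)⟩
  · refine (min_le_right _ _).trans (Finset.card_le_card (fun t ht => ?_))
    rw [Finset.mem_infs]
    exact ⟨S.max' hS, S.max'_mem hS, t, ht, inf_eq_right.2 ((T.le_max' t ht).trans h)⟩

theorem update_inf (x y : Box k) (i : Fin n) (s t : Fin (k i)) :
    Function.update x i s ⊓ Function.update y i t = Function.update (x ⊓ y) i (s ⊓ t) := by
  ext j
  by_cases hj : j = i
  · subst hj; simp
  · simp [Function.update_of_ne hj]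

theorem infs_push_subset (A B : Finset (Box k)) (i : Fin n) :
    push A i ⊼ push B i ⊆ push (A ⊼ B) i := by
  intro z hz
  rw [Finset.mem_infs] at hz
  obtain ⟨x, hx, y, hy, rfl⟩ := hz
  rw [mem_push] at hx hy ⊢
  have h1 : line A i x ⊼ line B i y ⊆ line (A ⊼ B) i (x ⊓ y) := by
    intro u hu
    rw [Finset.mem_infs] at hu
    obtain ⟨s, hs, t, ht, rfl⟩ := hu
    rw [mem_line] at hs ht ⊢
    rw [← update_inf]
    exact Finset.inf_mem_infs hs ht
  have h2 := (min_card_le_card_infs (line A i x) (line B i y)).trans (Finset.card_le_card h1)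
  refine lt_of_lt_of_le ?_ h2
  rw [lt_min_iff]
  have e : (((x ⊓ y) i : Fin (k i)) : ℕ) = min (x i : ℕ) (y i : ℕ) := by
    rw [Pi.inf_apply]; exact Fin.coe_min _ _ |>.symm ▸ rfl
  rw [e]
  exact ⟨lt_of_le_of_lt (min_le_left _ _) hx, lt_of_le_of_lt (min_le_right _ _) hy⟩

theorem card_infs_push_le (A B : Finset (Box k)) (i : Fin n) :
    #(push A i ⊼ push B i) ≤ #(A ⊼ B) :=
  (Finset.card_le_card (infs_push_subset A B i)).trans (card_push _ i).le

/-- Daykin–Kleitman: it is enough to consider order ideals. -/
theorem compression (hk : ∀ i, 0 < k i) (A B : Finset (Box k)) :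
    ∃ A' B' : Finset (Box k), #A' = #A ∧ #B' = #B ∧ IsDown A' ∧ IsDown B' ∧
      #(A' ∩ B') ≤ #(A ⊼ B) := by
  classical
  obtain ⟨m, hm⟩ : ∃ m, m = wt A + wt B := ⟨_, rfl⟩
  induction m using Nat.strong_induction_on generalizing A B with
  | _ m ih =>
  by_cases hA : ∀ i x, lineN A i x = range #(line A i x)
  · by_cases hB : ∀ i x, lineN B i x = range #(line B i x)
    · refine ⟨A, B, rfl, rfl, isDown_of_lines A hA, isDown_of_lines B hB, ?_⟩
      refine Finset.card_le_card (fun x hx => ?_)
      rw [Finset.mem_inter] at hx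
      rw [Finset.mem_infs]
      exact ⟨x, hx.1, x, hx.2, inf_idem x⟩
    · push Not at hB
      obtain ⟨i, x, hx⟩ := hB
      have h1 := wt_push_le A i (hk i)
      have h2 := wt_push_lt B i x hx
      obtain ⟨A', B', e1, e2, e3, e4, e5⟩ := ih _ (by omega) (push A i) (push B i) rfl
      exact ⟨A', B', e1.trans (card_push A i), e2.trans (card_push B i), e3, e4,
        e5.trans (card_infs_push_le A B i)⟩
  · push Not at hA
    obtain ⟨i, x, hx⟩ := hA
    have h1 := wt_push_lt A i x hx
    have h2 := wt_push_le B i (hk i)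
    obtain ⟨A', B', e1, e2, e3, e4, e5⟩ := ih _ (by omega) (push A i) (push B i) rfl
    exact ⟨A', B', e1.trans (card_push A i), e2.trans (card_push B i), e3, e4,
      e5.trans (card_infs_push_le A B i)⟩

end DKW
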