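import Mathlib

/-!
Compression to down-sets in a product of finite chains (Daykin-Kleitman): for finite sets `A, B` there are
down-sets `A', B'` of the same sizes with `|A' ∩ B'| ≤ |A ∧ B|`.
-/

namespace DKWComp

open Finset

variable {n : ℕ} {k : Fin n → ℕ}

/-- The product of the chains `{0, …, k i - 1}`. -/
abbrev Mx {n : ℕ} (k : Fin n → ℕ) : Type := (i : Fin n) → Fin (k i)

/-- The set of the elements `a ∧ b`, `a ∈ A`, `b ∈ B`. -/
def meet (A B : Finset (Mx k)) : Finset (Mx k) := image₂ (fun a b => a ⊓ b) A B

theorem mem_meet {A B : Finset (Mx k)} {x : Mx k} :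
    x ∈ meet A B ↔ ∃ a ∈ A, ∃ b ∈ B, a ⊓ b = x := by
  simp [meet, mem_image₂]

/-- The fibre of `A` on the `i`-line through `x`. -/
def fib (A : Finset (Mx k)) (i : Fin n) (x : Mx k) : Finset (Fin (k i)) :=
  univ.filter fun c => Function.update x i c ∈ A

theorem mem_fib {A : Finset (Mx k)} {i : Fin n} {x : Mx k} {c : Fin (k i)} :
    c ∈ fib A i x ↔ Function.update x i c ∈ A := by
  simp [fib]

theorem fib_update (A : Finset (Mx k)) (i : Fin n) (x : Mx k) (c : Fin (k i)) :
    fib A i (Function.update x i c) = fib A i x := by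
  ext d
  rw [mem_fib, mem_fib, Function.update_idem]

/-- Double counting. -/
theorem sum_fib (A : Finset (Mx k)) (i : Fin n) :
    ∑ x : Mx k, (fib A i x).card = k i * A.card := by
  classical
  have h1 : ∀ x : Mx k, (fib A i x).card =
      ∑ c : Fin (k i), if Function.update x i c ∈ A then 1 else 0 := by
    intro x
    rw [fib, card_filter]
  simp only [h1]
  have h2 : ∑ x : Mx k, ∑ c : Fin (k i), (if Function.update x i c ∈ A then 1 else 0) =
      ∑ p : Mx k × Fin (k i), (if Function.update p.1 i p.2 ∈ A then 1 else 0) := by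
    rw [Fintype.sum_prod_type]
  rw [h2]
  have h3 : ∑ p : Mx k × Fin (k i), (if Function.update p.1 i p.2 ∈ A then 1 else 0) =
      ∑ p : Mx k × Fin (k i), (if p.1 ∈ A then 1 else 0) := by
    refine Finset.sum_bij' (fun p _ => (Function.update p.1 i p.2, p.1 i))
      (fun p _ => (Function.update p.1 i p.2, p.1 i)) ?_ ?_ ?_ ?_ ?_
    · intro p _
      exact mem_univ _
    · intro p _
      exact mem_univ _
    · rintro ⟨x, c⟩ _
      simp
    · rintro ⟨x, c⟩ _
      simp
    · rintro ⟨x, c⟩ _
      rfl
  rw [h3, Fintype.sum_prod_type, Finset.sum_comm]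
  simp only [← card_filter, Finset.filter_univ_mem, sum_const, card_univ, Fintype.card_fin,
    smul_eq_mul]

/-- Compression in direction `i`. -/
def cmp (i : Fin n) (A : Finset (Mx k)) : Finset (Mx k) :=
  univ.filter fun x => (x i : ℕ) < (fib A i x).card

theorem mem_cmp {i : Fin n} {A : Finset (Mx k)} {x : Mx k} :
    x ∈ cmp i A ↔ (x i : ℕ) < (fib A i x).card := by
  simp [cmp]

theorem card_fib_le (A : Finset (Mx k)) (i : Fin n) (x : Mx k) : (fib A i x).card ≤ k i := by
  have h := card_le_univ (fib A i x)
  rwa [Fintype.card_fin] at h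

theorem card_lt (m t : ℕ) (ht : t ≤ m) : (univ.filter fun c : Fin m => (c : ℕ) < t).card = t := by
  have h1 : (univ.filter fun c : Fin m => (c : ℕ) < t).card = (range t).card := by
    refine Finset.card_bij (fun c _ => (c : ℕ)) ?_ ?_ ?_
    · intro c hc
      rw [mem_filter] at hc
      exact mem_range.2 hc.2
    · intro c _ d _ h
      exact Fin.ext h
    · intro c hc
      rw [mem_range] at hc
      exact ⟨⟨c, by omega⟩, by rw [mem_filter]; exact ⟨mem_univ _, hc⟩, rfl⟩
  rw [h1, card_range]

theorem fib_cmp (i : Fin n) (A : Finset (Mx k)) (x : Mx k) :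
    fib (cmp i A) i x = univ.filter fun c : Fin (k i) => (c : ℕ) < (fib A i x).card := by
  ext c
  rw [mem_fib, mem_cmp, fib_update, mem_filter, Function.update_self]
  simp

theorem card_fib_cmp (i : Fin n) (A : Finset (Mx k)) (x : Mx k) :
    (fib (cmp i A) i x).card = (fib A i x).card := by
  rw [fib_cmp, card_lt _ _ (card_fib_le A i x)]

theorem card_le_of_fib {A B : Finset (Mx k)} (i : Fin n)
    (h : ∀ x, (fib A i x).card ≤ (fib B i x).card) : A.card ≤ B.card := by
  rcases Nat.eq_zero_or_pos (k i) with h0 | h0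
  · have hA : A = ∅ := by
      rw [eq_empty_iff_forall_notMem]
      intro x _
      have := (x i).2
      omega
    rw [hA, card_empty]
    exact Nat.zero_le _
  · have h1 := Finset.sum_le_sum (s := univ) fun x _ => h x
    rw [sum_fib, sum_fib] at h1
    exact Nat.le_of_mul_le_mul_left h1 h0

theorem card_cmp (i : Fin n) (A : Finset (Mx k)) : (cmp i A).card = A.card :=
  le_antisymm (card_le_of_fib i fun x => (card_fib_cmp i A x).le)
    (card_le_of_fib i fun x => (card_fib_cmp i A x).ge)

theorem update_inf (i : Fin n) (a b : Mx k) (c d : Fin (k i)) :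
    Function.update a i c ⊓ Function.update b i d = Function.update (a ⊓ b) i (c ⊓ d) := by
  funext j
  by_cases hj : j = i
  · subst hj
    simp
  · simp [Function.update_of_ne hj]

/-- The fibre of the meet of two sets. -/
theorem min_card_fib_le (i : Fin n) (A B : Finset (Mx k)) (a b : Mx k) :
    min (fib A i a).card (fib B i b).card ≤ (fib (meet A B) i (a ⊓ b)).card := by
  rcases (fib A i a).eq_empty_or_nonempty with hA | hA
  · rw [hA, card_empty]
    simp
  rcases (fib B i b).eq_empty_or_nonempty with hB | hB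
  · rw [hB, card_empty]
    simp
  rcases le_total ((fib A i a).max' hA) ((fib B i b).max' hB) with h | h
  · refine le_trans (min_le_left _ _) (card_le_card ?_)
    intro c hc
    rw [mem_fib, mem_meet]
    refine ⟨_, mem_fib.1 hc, _, mem_fib.1 ((fib B i b).max'_mem hB), ?_⟩
    rw [update_inf, inf_eq_left.2 (le_trans (le_max' _ c hc) h)]
  · refine le_trans (min_le_right _ _) (card_le_card ?_)
    intro c hc
    rw [mem_fib, mem_meet]
    refine ⟨_, mem_fib.1 ((fib A i a).max'_mem hA), _, mem_fib.1 hc, ?_⟩
    rw [update_inf, inf_eq_right.2 (le_trans (le_max' _ c hc) h)]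

/-- Compression does not increase the size of the meet. -/
theorem card_meet_cmp (i : Fin n) (A B : Finset (Mx k)) :
    (meet (cmp i A) (cmp i B)).card ≤ (meet A B).card := by
  apply card_le_of_fib i
  intro x
  have h1 : fib (meet (cmp i A) (cmp i B)) i x ⊆
      univ.filter fun c : Fin (k i) => (c : ℕ) < (fib (meet A B) i x).card := by
    intro c hc
    rw [mem_fib, mem_meet] at hc
    obtain ⟨a, ha, b, hb, hab⟩ := hc
    rw [mem_cmp] at ha hb
    rw [mem_filter]
    refine ⟨mem_univ _, ?_⟩
    have h2 := min_card_fib_le i A B a b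
    have h3 : fib (meet A B) i (a ⊓ b) = fib (meet A B) i x := by rw [hab, fib_update]
    have h4 : (c : ℕ) = min (a i : ℕ) (b i : ℕ) := by
      have h5 := congrFun hab i
      rw [Function.update_self] at h5
      rw [← h5]
      rfl
    rw [h3] at h2
    refine lt_of_lt_of_le ?_ h2
    rw [h4]
    exact lt_min (lt_of_le_of_lt (min_le_left _ _) ha) (lt_of_le_of_lt (min_le_right _ _) hb)
  refine le_trans (card_le_card h1) ?_
  rw [card_lt _ _ (card_fib_le _ i x)]

/-- `A` is compressed in direction `i`. -/
def IsCmp (i : Fin n) (A : Finset (Mx k)) : Prop :=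
  ∀ x ∈ A, ∀ c : Fin (k i), c ≤ x i → Function.update x i c ∈ A

theorem isCmp_cmp (i : Fin n) (A : Finset (Mx k)) : IsCmp i (cmp i A) := by
  intro x hx c hc
  rw [mem_cmp] at hx ⊢
  rw [fib_update, Function.update_self]
  exact lt_of_le_of_lt hc hx

/-- Compression in direction `j` preserves compression in direction `i`. -/
theorem IsCmp.cmp {i j : Fin n} {A : Finset (Mx k)} (h : IsCmp i A) :
    IsCmp i (DKWComp.cmp j A) := by
  by_cases hij : i = j
  · subst hij
    exact isCmp_cmp i A
  intro x hx c hc
  rw [mem_cmp] at hx ⊢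
  rw [Function.update_of_ne (Ne.symm hij)]
  refine lt_of_lt_of_le hx (card_le_card ?_)
  intro d hd
  rw [mem_fib] at hd ⊢
  rw [Function.update_comm hij]
  refine h _ hd c ?_
  rw [Function.update_of_ne hij]
  exact hc

theorem isLowerSet_of_isCmp {A : Finset (Mx k)} (h : ∀ i, IsCmp i A) :
    IsLowerSet (A : Set (Mx k)) := by
  classical
  intro y x hxy hy
  have key : ∀ T : Finset (Fin n), (fun i => if i ∈ T then x i else y i) ∈ A := by
    intro T
    induction T using Finset.induction_on with
    | empty => simpa using hy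
    | insert j T hj ih =>
      have h1 := h j _ ih (x j) (by
        change x j ≤ if j ∈ T then x j else y j
        rw [if_neg hj]
        exact hxy j)
      have h2 : Function.update (fun i => if i ∈ T then x i else y i) j (x j) =
          fun i => if i ∈ insert j T then x i else y i := by
        funext i
        by_cases hi : i = j
        · subst hi
          simp
        · simp [Function.update_of_ne hi, hi]
      rwa [h2] at h1
  have h1 := key univ
  simpa using h1

theorem meet_eq_inter {A B : Finset (Mx k)} (hA : IsLowerSet (A : Set (Mx k)))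
    (hB : IsLowerSet (B : Set (Mx k))) : meet A B = A ∩ B := by
  ext x
  rw [mem_meet, mem_inter]
  constructor
  · rintro ⟨a, ha, b, hb, rfl⟩
    exact ⟨hA inf_le_left ha, hB inf_le_right hb⟩
  · rintro ⟨h1, h2⟩
    exact ⟨x, h1, x, h2, inf_idem x⟩

/-- **Compression to down-sets.** -/
theorem exists_lower (A B : Finset (Mx k)) : ∃ A' B' : Finset (Mx k),
    IsLowerSet (A' : Set (Mx k)) ∧ IsLowerSet (B' : Set (Mx k)) ∧ A'.card = A.card ∧
      B'.card = B.card ∧ (A' ∩ B').card ≤ (meet A B).card := by
  classical
  have key : ∀ T : Finset (Fin n), ∃ A' B' : Finset (Mx k), (∀ i ∈ T, IsCmp i A') ∧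
      (∀ i ∈ T, IsCmp i B') ∧ A'.card = A.card ∧ B'.card = B.card ∧
        (meet A' B').card ≤ (meet A B).card := by
    intro T
    induction T using Finset.induction_on with
    | empty => exact ⟨A, B, by simp, by simp, rfl, rfl, le_rfl⟩
    | insert j T hj ih =>
      obtain ⟨A', B', h1, h2, h3, h4, h5⟩ := ih
      refine ⟨cmp j A', cmp j B', ?_, ?_, by rw [card_cmp, h3], by rw [card_cmp, h4],
        le_trans (card_meet_cmp j A' B') h5⟩
      · intro i hi
        rcases mem_insert.1 hi with rfl | hi
        · exact isCmp_cmp i A'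
        · exact (h1 i hi).cmp
      · intro i hi
        rcases mem_insert.1 hi with rfl | hi
        · exact isCmp_cmp i B'
        · exact (h2 i hi).cmp
  obtain ⟨A', B', h1, h2, h3, h4, h5⟩ := key univ
  have hA := isLowerSet_of_isCmp fun i => h1 i (mem_univ i)
  have hB := isLowerSet_of_isCmp fun i => h2 i (mem_univ i)
  refine ⟨A', B', hA, hB, h3, h4, ?_⟩
  rwa [← meet_eq_inter hA hB]

end DKWComp
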