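import Pool.Agent.Lib.MP_f05b2f_co.UB.Eq

/-!
Daykin–Kleitman–West question Q1 for products of chains of arbitrary lengths: the case of equality
in the Daykin–Kleitman bound, and Q1 in that case.

Kept out of Results (at most four hand-ins per problem are graded). Its claim file was:

Proves: for all n and all k_1, …, k_n ≥ 1 (unequal chains allowed), with N = k_1⋯k_n, and all 1 ≤ α, β ≤ N: N·f(α,β) = αβ if and only if there is a set S of coordinates such that the product of the k_i with i in S divides α and the product of the k_i with i not in S divides β; and whenever N·f(α,β) = αβ there is a permutation σ with |L_σ(α)| = α, |R_σ(β)| = β and |L_σ(α) ∧ R_σ(β)| = f(α,β).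
Definitions: Box k is the product of the chains Fin (k i), ordered componentwise; lexLT σ x y (revLT σ x y) says x(σ j) < y(σ j) for some j with x(σ j') = y(σ j') for all j' < j (for all j' > j); initSeg r α is the set of the elements having fewer than α predecessors for r; L k σ α = initSeg (lexLT σ) α and R k σ β = initSeg (revLT σ) β are L_σ(α), R_σ(β); f k α β is the least |A ∧ B| over finite sets A, B in Box k with |A| = α, |B| = β, where A ∧ B (Mathlib's infs) is the set of all meets a ∧ b.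
Relation: partial answer to Q1 for all n and all chain lengths: it determines when the Daykin–Kleitman lower bound is attained and settles Q1 for those (α,β); the known list has the equality case only for equal chains and only as a necessary condition.
-/

open Finset DKW
open scoped FinsetFamily

namespace Pool.Agent.Results.MP_f05b2f_co.EqualityCase

/-- `f(α,β)`: the least possible number of meets of two sets with `α` and `β` elements -/
noncomputable def f {n : ℕ} (k : Fin n → ℕ) (α β : ℕ) : ℕ :=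
  sInf {m | ∃ A B : Finset (Box k), #A = α ∧ #B = β ∧ #(A ⊼ B) = m}

theorem result {n : ℕ} (k : Fin n → ℕ) (hk : ∀ i, 1 ≤ k i) (α β : ℕ)
    (_hα1 : 1 ≤ α) (hα : α ≤ ∏ i, k i) (_hβ1 : 1 ≤ β) (hβ : β ≤ ∏ i, k i) :
    ((∏ i, k i) * f k α β = α * β ↔
      ∃ S : Finset (Fin n), ∏ i ∈ S, k i ∣ α ∧ ∏ i ∈ Sᶜ, k i ∣ β) ∧
    ((∏ i, k i) * f k α β = α * β →
      ∃ σ : Equiv.Perm (Fin n), #(L k σ α) = α ∧ #(R k σ β) = β ∧
        #(L k σ α ⊼ R k σ β) = f k α β) := by
  classical
  have hN : 0 < ∏ i, k i := Finset.prod_pos fun i _ => hk i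
  have hL : ∀ σ : Equiv.Perm (Fin n), #(L k σ α) = α := fun σ =>
    card_initSeg (good_lex σ) (by rw [UB.card_box]; exact hα)
  have hR : ∀ σ : Equiv.Perm (Fin n), #(R k σ β) = β := fun σ =>
    card_initSeg (good_rev σ) (by rw [UB.card_box]; exact hβ)
  have hsub : ∀ σ : Equiv.Perm (Fin n), #(L k σ α ⊼ R k σ β) ≤ #(L k σ α ∩ R k σ β) :=
    fun σ => Finset.card_le_card (infs_subset_inter (isDown_initSeg (good_lex (k := k) σ) α)
      (isDown_initSeg (good_rev (k := k) σ) β))
  have hfle : ∀ σ : Equiv.Perm (Fin n), f k α β ≤ #(L k σ α ⊼ R k σ β) := fun σ =>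
    Nat.sInf_le ⟨L k σ α, R k σ β, hL σ, hR σ, rfl⟩
  have hne : {m | ∃ A B : Finset (Box k), #A = α ∧ #B = β ∧ #(A ⊼ B) = m}.Nonempty :=
    ⟨_, L k 1 α, R k 1 β, hL 1, hR 1, rfl⟩
  obtain ⟨A, B, hA, hB, hAB⟩ := Nat.sInf_mem hne
  have hlow : α * β ≤ (∏ i, k i) * f k α β := by
    have h := UB.lower A B
    rw [hA, hB, hAB] at h
    exact h
  have hiff : (∏ i, k i) * f k α β = α * β ↔
      ∃ S : Finset (Fin n), ∏ i ∈ S, k i ∣ α ∧ ∏ i ∈ Sᶜ, k i ∣ β := by
    constructor
    · intro h
      obtain ⟨A', B', e1, e2, dA, dB, e3⟩ := compression (fun i => hk i) A B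
      obtain ⟨S, h1, h2⟩ := UB.dvd_of_eq (fun i => hk i) dA dB (by
        rw [e1, e2, hA, hB, ← h]
        exact Nat.mul_le_mul_left _ (e3.trans_eq hAB))
      rw [e1, hA] at h1
      rw [e2, hB] at h2
      exact ⟨S, h1, h2⟩
    · rintro ⟨S, h1, h2⟩
      obtain ⟨σ, hσ⟩ := UB.exists_of_dvd (fun i => hk i) S hα hβ h1 h2
      refine le_antisymm ?_ hlow
      rw [← hσ]
      exact Nat.mul_le_mul_left _ ((hfle σ).trans (hsub σ))
  refine ⟨hiff, fun h => ?_⟩
  obtain ⟨S, h1, h2⟩ := hiff.1 h
  obtain ⟨σ, hσ⟩ := UB.exists_of_dvd (fun i => hk i) S hα hβ h1 h2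
  refine ⟨σ, hL σ, hR σ, le_antisymm ?_ (hfle σ)⟩
  refine (hsub σ).trans (Nat.le_of_mul_le_mul_left ?_ hN)
  rw [hσ, h]

end Pool.Agent.Results.MP_f05b2f_co.EqualityCase
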