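import Pool.Agent.Lib.MP_f05b2f_co.Four

/-!
The two-dimensional theorem for pairs of non-increasing sequences of column heights.
-/

namespace DKWTwo

/-- domination by an independent pair, of one of the two types -/
def Dom (W H D U X Y : ℤ) : Prop := Dom1 W H D U X Y ∨ Dom1 W H D U Y X

theorem Dom.symm {W H D U X Y : ℤ} (h : Dom W H D U X Y) : Dom W H D U Y X := Or.symm h

theorem Dom.mono {W H D U X Y D' U' X' Y' : ℤ} (h : Dom W H D' U' X' Y')
    (hD : D' ≤ D) (hU : U' ≤ U) (hX : X ≤ X') (hY : Y ≤ Y') : Dom W H D U X Y :=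
  h.elim (fun h => Or.inl (h.mono hD hU hX hY)) (fun h => Or.inr (h.mono hD hU hY hX))

theorem Dom.congr {W H D U X Y W' H' D' U' X' Y' : ℤ} (h : Dom W' H' D' U' X' Y')
    (e1 : W' = W) (e2 : H' = H) (e3 : D' = D) (e4 : U' = U) (e5 : X' = X) (e6 : Y' = Y) :
    Dom W H D U X Y := by
  subst e1 e2 e3 e4 e5 e6; exact h

section blocks
variable (w1 w2 w3 w4 h1 h2 h3 h4 : ℤ) (p1 : 0 ≤ w1) (p2 : 0 ≤ w2) (p3 : 0 ≤ w3) (p4 : 0 ≤ w4)
  (q1 : 0 ≤ h1) (q2 : 0 ≤ h2) (q3 : 0 ≤ h3) (q4 : 0 ≤ h4)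

include p1 p2 p3 p4 q1 q2 q3 q4

theorem four_XYXY :
    Dom (w1 + w2 + w3 + w4) (h1 + h2 + h3 + h4) (w1 * (h2 + h3 + h4) + w2 * (h3 + h4) + w3 * h4)
      (w2 * h1 + w3 * (h1 + h2) + w4 * (h1 + h2 + h3)) (w1 * h1 + w3 * h3) (w2 * h2 + w4 * h4) := by
  have m11 : 0 ≤ w1 * h1 := mul_nonneg p1 q1
  have m12 : 0 ≤ w1 * h2 := mul_nonneg p1 q2
  have m13 : 0 ≤ w1 * h3 := mul_nonneg p1 q3
  have m14 : 0 ≤ w1 * h4 := mul_nonneg p1 q4
  have m21 : 0 ≤ w2 * h1 := mul_nonneg p2 q1
  have m22 : 0 ≤ w2 * h2 := mul_nonneg p2 q2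
  have m23 : 0 ≤ w2 * h3 := mul_nonneg p2 q3
  have m24 : 0 ≤ w2 * h4 := mul_nonneg p2 q4
  have m31 : 0 ≤ w3 * h1 := mul_nonneg p3 q1
  have m32 : 0 ≤ w3 * h2 := mul_nonneg p3 q2
  have m33 : 0 ≤ w3 * h3 := mul_nonneg p3 q3
  have m34 : 0 ≤ w3 * h4 := mul_nonneg p3 q4
  have m41 : 0 ≤ w4 * h1 := mul_nonneg p4 q1
  have m42 : 0 ≤ w4 * h2 := mul_nonneg p4 q2
  have m43 : 0 ≤ w4 * h3 := mul_nonneg p4 q3
  have m44 : 0 ≤ w4 * h4 := mul_nonneg p4 q4
  by_cases z2 : w2 * h2 = 0
  · left
    refine ⟨w1 + w2 + w3, h4, by linarith, by linarith, by linarith, by linarith, ?_, ?_, ?_, ?_⟩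
    all_goals linarith
  by_cases z3 : w3 * h3 = 0
  · left
    refine ⟨w1, h2 + h3 + h4, by linarith, by linarith, by linarith, by linarith, ?_, ?_, ?_, ?_⟩
    all_goals linarith
  by_cases z1 : w1 * h1 = 0
  · have h := three (w1 + w2) w3 w4 (h1 + h2) h3 h4 (by linarith) p3 p4 (by linarith) q3 q4
    have h' : Dom (w1 + w2 + w3 + w4) (h1 + h2 + h3 + h4) ((w1 + w2) * (h3 + h4) + w3 * h4)
        (w3 * (h1 + h2) + w4 * (h1 + h2 + h3)) (w3 * h3) ((w1 + w2) * (h1 + h2) + w4 * h4) :=
      Dom.symm (Dom.congr h rfl (by ring) rfl rfl rfl rfl)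
    refine h'.mono ?_ ?_ ?_ ?_
    all_goals linarith
  by_cases z4 : w4 * h4 = 0
  · have h := three w1 w2 (w3 + w4) h1 h2 (h3 + h4) p1 p2 (by linarith) q1 q2 (by linarith)
    have h' : Dom (w1 + w2 + w3 + w4) (h1 + h2 + h3 + h4) (w1 * (h2 + (h3 + h4)) + w2 * (h3 + h4))
        (w2 * h1 + (w3 + w4) * (h1 + h2)) (w1 * h1 + (w3 + w4) * (h3 + h4)) (w2 * h2) :=
      Dom.congr h (by ring) (by ring) rfl rfl rfl rfl
    refine h'.mono ?_ ?_ ?_ ?_
    all_goals linarith
  left
  have pos : ∀ u v : ℤ, 0 ≤ u → 0 ≤ v → u * v ≠ 0 → 1 ≤ u ∧ 1 ≤ v := by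
    intro u v hu hv huv
    refine ⟨?_, ?_⟩
    · rcases hu.eq_or_lt with h | h
      · exact absurd (by rw [← h, zero_mul]) huv
      · exact h
    · rcases hv.eq_or_lt with h | h
      · exact absurd (by rw [← h, mul_zero]) huv
      · exact h
  obtain ⟨r1, s1⟩ := pos w1 h1 p1 q1 z1
  obtain ⟨r2, s2⟩ := pos w2 h2 p2 q2 z2
  obtain ⟨r3, s3⟩ := pos w3 h3 p3 q3 z3
  obtain ⟨r4, s4⟩ := pos w4 h4 p4 q4 z4
  exact four_pos w1 w2 w3 w4 h1 h2 h3 h4 r1 r2 r3 r4 s1 s2 s3 s4

theorem four_XYYX :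
    Dom (w1 + w2 + w3 + w4) (h1 + h2 + h3 + h4) (w1 * (h2 + h3 + h4) + w2 * (h3 + h4) + w3 * h4)
      (w2 * h1 + w3 * (h1 + h2) + w4 * (h1 + h2 + h3)) (w1 * h1 + w4 * h4) (w2 * h2 + w3 * h3) := by
  have m23 : 0 ≤ w2 * h3 := mul_nonneg p2 q3
  have m32 : 0 ≤ w3 * h2 := mul_nonneg p3 q2
  have h := three w1 (w2 + w3) w4 h1 (h2 + h3) h4 p1 (by linarith) p4 q1 (by linarith) q4
  have h' : Dom (w1 + w2 + w3 + w4) (h1 + h2 + h3 + h4) (w1 * (h2 + h3 + h4) + (w2 + w3) * h4)
      ((w2 + w3) * h1 + w4 * (h1 + (h2 + h3))) (w1 * h1 + w4 * h4) ((w2 + w3) * (h2 + h3)) :=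
    Dom.congr h (by ring) (by ring) rfl rfl rfl rfl
  refine h'.mono ?_ ?_ ?_ ?_
  all_goals linarith

end blocks

/-- combining the two halves of a cut pair -/
theorem glue (x W y H D1 U1 X1 Y1 D2 U2 X2 Y2 : ℤ)
    (h1 : Dom x (H - y) D1 U1 X1 Y1) (h2 : Dom (W - x) y D2 U2 X2 Y2) :
    Dom W H (x * y + D1 + D2) ((W - x) * (H - y) + U1 + U2) (X1 + X2) (Y1 + Y2) := by
  rcases h1 with ⟨a, b, ha0, haW, hb0, hbH, hD, hU, hX, hY⟩ | ⟨a, b, ha0, haW, hb0, hbH, hD, hU, hX, hY⟩
  · rcases h2 with ⟨a', b', ha0', haW', hb0', hbH', hD', hU', hX', hY'⟩ |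
      ⟨a', b', ha0', haW', hb0', hbH', hD', hU', hX', hY'⟩
    · have h := four_XYXY a (x - a) a' (W - x - a') (H - y - b) b (y - b') b' ha0 (by linarith) ha0'
        (by linarith) (by linarith) hb0 (by linarith) hb0'
      have h' := Dom.congr (W := W) (H := H) h (by ring) (by ring) rfl rfl rfl rfl
      refine h'.mono ?_ ?_ ?_ ?_
      all_goals linarith
    · have h := four_XYYX a (x - a) a' (W - x - a') (H - y - b) b (y - b') b' ha0 (by linarith) ha0'
        (by linarith) (by linarith) hb0 (by linarith) hb0'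
      have h' := Dom.congr (W := W) (H := H) h (by ring) (by ring) rfl rfl rfl rfl
      refine h'.mono ?_ ?_ ?_ ?_
      all_goals linarith
  · rcases h2 with ⟨a', b', ha0', haW', hb0', hbH', hD', hU', hX', hY'⟩ |
      ⟨a', b', ha0', haW', hb0', hbH', hD', hU', hX', hY'⟩
    · have h := four_XYYX a (x - a) a' (W - x - a') (H - y - b) b (y - b') b' ha0 (by linarith) ha0'
        (by linarith) (by linarith) hb0 (by linarith) hb0'
      have h' := (Dom.congr (W := W) (H := H) h (by ring) (by ring) rfl rfl rfl rfl).symm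
      refine h'.mono ?_ ?_ ?_ ?_
      all_goals linarith
    · have h := four_XYXY a (x - a) a' (W - x - a') (H - y - b) b (y - b') b' ha0 (by linarith) ha0'
        (by linarith) (by linarith) hb0 (by linarith) hb0'
      have h' := (Dom.congr (W := W) (H := H) h (by ring) (by ring) rfl rfl rfl rfl).symm
      refine h'.mono ?_ ?_ ?_ ?_
      all_goals linarith


open Finset in
/-- The two-dimensional domination theorem. -/
theorem two_dim (W : ℕ) : ∀ (H : ℤ) (a b : ℕ → ℤ), 0 ≤ H →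
    (∀ j < W, 0 ≤ a j ∧ a j ≤ H) → (∀ j < W, 0 ≤ b j ∧ b j ≤ H) →
    (∀ i j, i ≤ j → j < W → a j ≤ a i) → (∀ i j, i ≤ j → j < W → b j ≤ b i) →
    Dom W H (∑ j ∈ range W, min (a j) (b j)) (∑ j ∈ range W, (H - max (a j) (b j)))
      (∑ j ∈ range W, (a j - min (a j) (b j))) (∑ j ∈ range W, (b j - min (a j) (b j))) := by
  induction W using Nat.strong_induction_on with
  | _ W ih =>
  intro H a b hH ha hb aa ab
  by_cases hcut : ∃ x, 0 < x ∧ x < W ∧
      ((b (x - 1) ≤ a (x - 1) ∧ a x ≤ b x) ∨ (a (x - 1) ≤ b (x - 1) ∧ b x ≤ a x))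
  · obtain ⟨x, hx0, hxW, hx⟩ := hcut
    obtain ⟨m, rfl⟩ : ∃ m, W = x + m := ⟨W - x, by omega⟩
    set y := min (a (x - 1)) (b (x - 1)) with hy
    have hx1 : x - 1 < x + m := by omega
    have hy0 : 0 ≤ y := le_min (ha _ hx1).1 (hb _ hx1).1
    have hyH : y ≤ H := (min_le_left _ _).trans (ha _ hx1).2
    have hleft : ∀ j < x, y ≤ a j ∧ y ≤ b j := by
      intro j hj
      exact ⟨(min_le_left _ _).trans (aa j (x - 1) (by omega) hx1),
        (min_le_right _ _).trans (ab j (x - 1) (by omega) hx1)⟩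
    have hxa : a x ≤ a (x - 1) := aa (x - 1) x (by omega) (by omega)
    have hxb : b x ≤ b (x - 1) := ab (x - 1) x (by omega) (by omega)
    have hright0 : a x ≤ y ∧ b x ≤ y := by
      rcases hx with ⟨h1, h2⟩ | ⟨h1, h2⟩
      · rw [hy, min_eq_right h1]; exact ⟨h2.trans hxb, hxb⟩
      · rw [hy, min_eq_left h1]; exact ⟨hxa, h2.trans hxa⟩
    have hright : ∀ j < m, a (x + j) ≤ y ∧ b (x + j) ≤ y := by
      intro j hj
      exact ⟨(aa x (x + j) (by omega) (by omega)).trans hright0.1,
        (ab x (x + j) (by omega) (by omega)).trans hright0.2⟩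
    have h1 := ih x (by omega) (H - y) (fun j => a j - y) (fun j => b j - y) (by linarith)
      (fun j hj => ⟨by linarith [(hleft j hj).1], by linarith [(ha j (by omega)).2]⟩)
      (fun j hj => ⟨by linarith [(hleft j hj).2], by linarith [(hb j (by omega)).2]⟩)
      (fun i j hij hj => by linarith [aa i j hij (by omega)])
      (fun i j hij hj => by linarith [ab i j hij (by omega)])
    have h2 := ih m (by omega) y (fun j => a (x + j)) (fun j => b (x + j)) hy0
      (fun j hj => ⟨(ha _ (by omega)).1, (hright j hj).1⟩)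
      (fun j hj => ⟨(hb _ (by omega)).1, (hright j hj).2⟩)
      (fun i j hij hj => aa _ _ (by omega) (by omega))
      (fun i j hij hj => ab _ _ (by omega) (by omega))
    have hcast : ((x + m : ℕ) : ℤ) - (x : ℤ) = (m : ℤ) := by push_cast; ring
    have g := glue (x : ℤ) ((x + m : ℕ) : ℤ) y H _ _ _ _ _ _ _ _ h1 (by rw [hcast]; exact h2)
    refine Dom.congr g rfl rfl ?_ ?_ ?_ ?_
    · rw [Finset.sum_range_add]
      have : ∑ j ∈ range x, min (a j - y) (b j - y) = ∑ j ∈ range x, (min (a j) (b j) - y) :=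
        Finset.sum_congr rfl (fun j _ => min_sub_sub_right _ _ _)
      rw [this, Finset.sum_sub_distrib, Finset.sum_const, Finset.card_range, nsmul_eq_mul]
      ring
    · rw [Finset.sum_range_add, hcast]
      have e1 : ∑ j ∈ range x, (H - y - max (a j - y) (b j - y)) =
          ∑ j ∈ range x, (H - max (a j) (b j)) :=
        Finset.sum_congr rfl (fun j _ => by rw [max_sub_sub_right]; ring)
      have e2 : ∑ j ∈ range m, (y - max (a (x + j)) (b (x + j))) =
          ∑ j ∈ range m, (H - max (a (x + j)) (b (x + j))) - m * (H - y) := by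
        have e3 : ∑ j ∈ range m, (y - max (a (x + j)) (b (x + j))) =
            ∑ j ∈ range m, ((H - max (a (x + j)) (b (x + j))) - (H - y)) :=
          Finset.sum_congr rfl (fun j _ => by ring)
        rw [e3, Finset.sum_sub_distrib (g := fun _ => H - y), Finset.sum_const, Finset.card_range,
          nsmul_eq_mul]
      rw [e1, e2]
      ring
    · rw [Finset.sum_range_add]
      have : ∑ j ∈ range x, (a j - y - min (a j - y) (b j - y)) =
          ∑ j ∈ range x, (a j - min (a j) (b j)) :=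
        Finset.sum_congr rfl (fun j _ => by rw [min_sub_sub_right]; ring)
      rw [this]
    · rw [Finset.sum_range_add]
      have : ∑ j ∈ range x, (b j - y - min (a j - y) (b j - y)) =
          ∑ j ∈ range x, (b j - min (a j) (b j)) :=
        Finset.sum_congr rfl (fun j _ => by rw [min_sub_sub_right]; ring)
      rw [this]
  · push Not at hcut
    rcases Nat.eq_zero_or_pos W with h0 | hpos
    · subst h0
      left
      exact ⟨0, 0, le_rfl, by simp, le_rfl, hH, by simp, by simp, by simp, by simp⟩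
    · -- one of the two sets contains the other one
      have key : (∀ j < W, b j ≤ a j) ∨ (∀ j < W, a j ≤ b j) := by
        rcases le_total (b 0) (a 0) with h | h
        · left
          intro j
          induction j with
          | zero => intro _; exact h
          | succ j ihj =>
            intro hj
            have := ((hcut (j + 1) (by omega) hj).1 (by simpa using ihj (by omega)))
            exact this.le
        · right
          intro j
          induction j with
          | zero => intro _; exact h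
          | succ j ihj =>
            intro hj
            have := ((hcut (j + 1) (by omega) hj).2 (by simpa using ihj (by omega)))
            exact this.le
      have hW0 : (0 : ℤ) ≤ W := by positivity
      have main : ∀ a b : ℕ → ℤ, (∀ j < W, 0 ≤ a j ∧ a j ≤ H) → (∀ j < W, 0 ≤ b j ∧ b j ≤ H) →
          (∀ j < W, b j ≤ a j) →
          Dom1 W H (∑ j ∈ range W, min (a j) (b j)) (∑ j ∈ range W, (H - max (a j) (b j)))
            (∑ j ∈ range W, (a j - min (a j) (b j))) (∑ j ∈ range W, (b j - min (a j) (b j))) := by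
        intro a b ha hb hab
        refine ⟨W, 0, hW0, le_rfl, le_rfl, hH, ?_, ?_, ?_, ?_⟩
        · rw [mul_zero]
          exact Finset.sum_nonneg (fun j hj => le_min (ha j (mem_range.1 hj)).1 (hb j (mem_range.1 hj)).1)
        · rw [sub_self, zero_mul]
          exact Finset.sum_nonneg (fun j hj => sub_nonneg.2
            (max_le (ha j (mem_range.1 hj)).2 (hb j (mem_range.1 hj)).2))
        · rw [sub_zero]
          calc ∑ j ∈ range W, (a j - min (a j) (b j)) ≤ ∑ j ∈ range W, H := by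
                refine Finset.sum_le_sum (fun j hj => ?_)
                have h1 := ha j (mem_range.1 hj)
                have h2 := hb j (mem_range.1 hj)
                have h3 : 0 ≤ min (a j) (b j) := le_min h1.1 h2.1
                linarith [h1.2]
            _ = W * H := by rw [Finset.sum_const, Finset.card_range, nsmul_eq_mul]
        · rw [mul_zero]
          refine le_of_eq (Finset.sum_eq_zero (fun j hj => ?_))
          rw [min_eq_right (hab j (mem_range.1 hj)), sub_self]
      rcases key with h | h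
      · exact Or.inl (main a b ha hb h)
      · right
        have := main b a hb ha h
        simpa only [min_comm, max_comm] using this

end DKWTwo
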