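import Pool.Agent.Lib.MP_f05b2f_co.Comp

/-!
The sets `L_σ(α)` and `R_σ(β)`.
-/

open Finset
open scoped FinsetFamily

namespace DKW

variable {n : ℕ} {k : Fin n → ℕ}

/-- `x <_σ y`: lexicographic order, coordinates read in the order `σ 0, σ 1, …` -/
def lexLT (σ : Equiv.Perm (Fin n)) (x y : Box k) : Prop :=
  ∃ j : Fin n, (∀ j', j' < j → x (σ j') = y (σ j')) ∧ x (σ j) < y (σ j)

/-- `x <_σ^rev y`: coordinates read in the order `σ (n-1), …, σ 0` -/
def revLT (σ : Equiv.Perm (Fin n)) (x y : Box k) : Prop :=
  ∃ j : Fin n, (∀ j', j < j' → x (σ j') = y (σ j')) ∧ x (σ j) < y (σ j)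

open Classical in
/-- the `α` smallest elements for a strict order `r`: the elements with fewer than `α`
predecessors -/
noncomputable def initSeg (r : Box k → Box k → Prop) (α : ℕ) : Finset (Box k) :=
  univ.filter (fun x => #(univ.filter (fun y => r y x)) < α)

/-- `L_σ(α)` -/
noncomputable def L (k : Fin n → ℕ) (σ : Equiv.Perm (Fin n)) (α : ℕ) : Finset (Box k) :=
  initSeg (lexLT σ) α

/-- `R_σ(β)` -/
noncomputable def R (k : Fin n → ℕ) (σ : Equiv.Perm (Fin n)) (β : ℕ) : Finset (Box k) :=
  initSeg (revLT σ) β

/-- a strict linear order extending the componentwise order -/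
structure Good (r : Box k → Box k → Prop) : Prop where
  irrefl : ∀ x, ¬ r x x
  trans : ∀ x y z, r x y → r y z → r x z
  total : ∀ x y, x ≠ y → r x y ∨ r y x
  ext : ∀ x y, x < y → r x y

theorem good_lex (σ : Equiv.Perm (Fin n)) : Good (lexLT (k := k) σ) where
  irrefl := by
    rintro x ⟨j, _, h⟩; exact lt_irrefl _ h
  trans := by
    rintro x y z ⟨j, h1, h2⟩ ⟨j', h3, h4⟩
    rcases lt_trichotomy j j' with h | h | h
    · refine ⟨j, fun i hi => (h1 i hi).trans (h3 i (hi.trans h)), ?_⟩
      rw [← h3 j h]; exact h2
    · subst h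
      exact ⟨j, fun i hi => (h1 i hi).trans (h3 i hi), h2.trans h4⟩
    · refine ⟨j', fun i hi => (h1 i (hi.trans h)).trans (h3 i hi), ?_⟩
      rw [h1 j' h]; exact h4
  total := by
    classical
    intro x y hxy
    have hne : (univ.filter (fun j => x (σ j) ≠ y (σ j))).Nonempty := by
      by_contra hcon
      rw [Finset.not_nonempty_iff_eq_empty, Finset.filter_eq_empty_iff] at hcon
      apply hxy
      funext i
      obtain ⟨j, rfl⟩ := σ.surjective i
      have := hcon (Finset.mem_univ j)
      simpa using this
    set j := (univ.filter (fun j => x (σ j) ≠ y (σ j))).min' hne with hj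
    have hjm : x (σ j) ≠ y (σ j) := (Finset.mem_filter.1 (Finset.min'_mem _ hne)).2
    have hjl : ∀ i, i < j → x (σ i) = y (σ i) := by
      intro i hi
      by_contra hcon
      exact absurd (Finset.min'_le _ i (by simp [hcon])) (not_le.2 hi)
    rcases lt_or_gt_of_ne hjm with h | h
    · exact Or.inl ⟨j, hjl, h⟩
    · exact Or.inr ⟨j, fun i hi => (hjl i hi).symm, h⟩
  ext := by
    classical
    intro x y hxy
    have hne : (univ.filter (fun j => x (σ j) ≠ y (σ j))).Nonempty := by
      by_contra hcon
      rw [Finset.not_nonempty_iff_eq_empty, Finset.filter_eq_empty_iff] at hcon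
      apply hxy.ne
      funext i
      obtain ⟨j, rfl⟩ := σ.surjective i
      have := hcon (Finset.mem_univ j)
      simpa using this
    set j := (univ.filter (fun j => x (σ j) ≠ y (σ j))).min' hne with hj
    have hjm : x (σ j) ≠ y (σ j) := (Finset.mem_filter.1 (Finset.min'_mem _ hne)).2
    have hjl : ∀ i, i < j → x (σ i) = y (σ i) := by
      intro i hi
      by_contra hcon
      exact absurd (Finset.min'_le _ i (by simp [hcon])) (not_le.2 hi)
    exact ⟨j, hjl, lt_of_le_of_ne (hxy.le _) hjm⟩

theorem good_rev (σ : Equiv.Perm (Fin n)) : Good (revLT (k := k) σ) where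
  irrefl := by
    rintro x ⟨j, _, h⟩; exact lt_irrefl _ h
  trans := by
    rintro x y z ⟨j, h1, h2⟩ ⟨j', h3, h4⟩
    rcases lt_trichotomy j j' with h | h | h
    · refine ⟨j', fun i hi => (h1 i (h.trans hi)).trans (h3 i hi), ?_⟩
      rw [h1 j' h]; exact h4
    · subst h
      exact ⟨j, fun i hi => (h1 i hi).trans (h3 i hi), h2.trans h4⟩
    · refine ⟨j, fun i hi => (h1 i hi).trans (h3 i (h.trans hi)), ?_⟩
      rw [← h3 j h]; exact h2
  total := by
    classical
    intro x y hxy
    have hne : (univ.filter (fun j => x (σ j) ≠ y (σ j))).Nonempty := by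
      by_contra hcon
      rw [Finset.not_nonempty_iff_eq_empty, Finset.filter_eq_empty_iff] at hcon
      apply hxy
      funext i
      obtain ⟨j, rfl⟩ := σ.surjective i
      have := hcon (Finset.mem_univ j)
      simpa using this
    set j := (univ.filter (fun j => x (σ j) ≠ y (σ j))).max' hne with hj
    have hjm : x (σ j) ≠ y (σ j) := (Finset.mem_filter.1 (Finset.max'_mem _ hne)).2
    have hjl : ∀ i, j < i → x (σ i) = y (σ i) := by
      intro i hi
      by_contra hcon
      exact absurd (Finset.le_max' _ i (by simp [hcon])) (not_le.2 hi)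
    rcases lt_or_gt_of_ne hjm with h | h
    · exact Or.inl ⟨j, hjl, h⟩
    · exact Or.inr ⟨j, fun i hi => (hjl i hi).symm, h⟩
  ext := by
    classical
    intro x y hxy
    have hne : (univ.filter (fun j => x (σ j) ≠ y (σ j))).Nonempty := by
      by_contra hcon
      rw [Finset.not_nonempty_iff_eq_empty, Finset.filter_eq_empty_iff] at hcon
      apply hxy.ne
      funext i
      obtain ⟨j, rfl⟩ := σ.surjective i
      have := hcon (Finset.mem_univ j)
      simpa using this
    set j := (univ.filter (fun j => x (σ j) ≠ y (σ j))).max' hne with hj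
    have hjm : x (σ j) ≠ y (σ j) := (Finset.mem_filter.1 (Finset.max'_mem _ hne)).2
    have hjl : ∀ i, j < i → x (σ i) = y (σ i) := by
      intro i hi
      by_contra hcon
      exact absurd (Finset.le_max' _ i (by simp [hcon])) (not_le.2 hi)
    exact ⟨j, hjl, lt_of_le_of_ne (hxy.le _) hjm⟩

section seg

variable {r : Box k → Box k → Prop} (hr : Good r)

open Classical in
/-- number of predecessors -/
noncomputable def rk (r : Box k → Box k → Prop) (x : Box k) : ℕ := #(univ.filter (fun y => r y x))

theorem mem_initSeg {r : Box k → Box k → Prop} {α : ℕ} {x : Box k} :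
    x ∈ initSeg r α ↔ rk r x < α := by
  simp [initSeg, rk]

include hr

theorem rk_lt {x y : Box k} (h : r x y) : rk r x < rk r y := by
  classical
  refine Finset.card_lt_card ⟨fun z hz => ?_, fun hcon => ?_⟩
  · simp only [Finset.mem_filter, Finset.mem_univ, true_and] at hz ⊢
    exact hr.trans _ _ _ hz h
  · have h1 : x ∈ univ.filter (fun z => r z y) := by simpa using h
    have h2 := hcon h1
    simp only [Finset.mem_filter, Finset.mem_univ, true_and] at h2
    exact hr.irrefl x h2

theorem rk_injective : Function.Injective (rk (k := k) r) := by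
  intro x y hxy
  by_contra hne
  rcases hr.total x y hne with h | h
  · exact absurd hxy (rk_lt hr h).ne
  · exact absurd hxy (rk_lt hr h).ne'

theorem rk_lt_iff {x y : Box k} : rk r x < rk r y ↔ r x y := by
  refine ⟨fun h => ?_, rk_lt hr⟩
  by_contra hcon
  have hne : x ≠ y := by
    rintro rfl; exact lt_irrefl _ h
  rcases hr.total x y hne with h' | h'
  · exact hcon h'
  · exact absurd (rk_lt hr h') (not_lt.2 h.le)

theorem card_initSeg {α : ℕ} (hα : α ≤ Fintype.card (Box k)) : #(initSeg r α) = α := by
  classical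
  have h1 : (univ.image (rk (k := k) r)) = range (Fintype.card (Box k)) := by
    refine Finset.eq_of_subset_of_card_le (fun t ht => ?_) ?_
    · rw [Finset.mem_image] at ht
      obtain ⟨x, _, rfl⟩ := ht
      rw [Finset.mem_range]
      refine lt_of_lt_of_le (Finset.card_lt_card (t := univ) ⟨Finset.filter_subset _ _, ?_⟩) le_rfl
      intro hcon
      have := hcon (Finset.mem_univ x)
      simp only [Finset.mem_filter, Finset.mem_univ, true_and] at this
      exact hr.irrefl x this
    · rw [Finset.card_range, Finset.card_image_of_injective _ (rk_injective hr), Finset.card_univ]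
  have h2 : (initSeg r α).image (rk r) = range α := by
    ext t
    rw [Finset.mem_image, Finset.mem_range]
    constructor
    · rintro ⟨x, hx, rfl⟩; exact mem_initSeg.1 hx
    · intro ht
      have : t ∈ univ.image (rk (k := k) r) := by
        rw [h1, Finset.mem_range]; omega
      rw [Finset.mem_image] at this
      obtain ⟨x, _, rfl⟩ := this
      exact ⟨x, mem_initSeg.2 ht, rfl⟩
  rw [← Finset.card_image_of_injective _ (rk_injective hr), h2, Finset.card_range]

theorem initSeg_closed {α : ℕ} {x y : Box k} (hy : y ∈ initSeg r α) (h : r x y) :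
    x ∈ initSeg r α := by
  rw [mem_initSeg] at hy ⊢
  exact (rk_lt hr h).trans hy

theorem isDown_initSeg (α : ℕ) : IsDown (initSeg r α) := by
  intro x hx y hyx
  rcases hyx.eq_or_lt with h | h
  · rw [h]; exact hx
  · exact initSeg_closed hr hx (hr.ext _ _ h)

end seg

theorem infs_subset_inter {A B : Finset (Box k)} (hA : IsDown A) (hB : IsDown B) :
    A ⊼ B ⊆ A ∩ B := by
  intro z hz
  rw [Finset.mem_infs] at hz
  obtain ⟨x, hx, y, hy, rfl⟩ := hz
  rw [Finset.mem_inter]
  exact ⟨hA x hx _ inf_le_left, hB y hy _ inf_le_right⟩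

end DKW
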