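import Pool.Agent.Lib.MP_f05b2f_co.Blk

/-!
Four blocks `X, Y, X, Y`: type 1 domination.
-/

namespace DKWTwo

/-- polynomial inequality for unit end blocks -/
theorem four_poly (s t u v : ℤ) (hs : 1 ≤ s) (ht : 1 ≤ t) (hu : 1 ≤ u) (hv : 1 ≤ v) :
    (s + t + 2) * ((s * v + (s + t + u + v + 1)) + (1 + t * v)) *
        ((t * u + (s + t + u + v + 1)) + (1 + s * u)) +
      (u + v + 2) * ((s * v + (s + t + u + v + 1)) + (1 + s * u)) *
        ((t * u + (s + t + u + v + 1)) + (1 + t * v)) ≤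
      (s + t + 2) * (u + v + 2) *
        ((s * v + (s + t + u + v + 1)) * (t * u + (s + t + u + v + 1)) -
          (1 + t * v) * (1 + s * u)) := by
  obtain ⟨s', rfl⟩ : ∃ s', s = s' + 1 := ⟨s - 1, by ring⟩
  obtain ⟨t', rfl⟩ : ∃ s', t = s' + 1 := ⟨t - 1, by ring⟩
  obtain ⟨u', rfl⟩ : ∃ s', u = s' + 1 := ⟨u - 1, by ring⟩
  obtain ⟨v', rfl⟩ : ∃ s', v = s' + 1 := ⟨v - 1, by ring⟩
  have hs' : 0 ≤ s' := by linarith
  have ht' : 0 ≤ t' := by linarith
  have hu' : 0 ≤ u' := by linarith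
  have hv' : 0 ≤ v' := by linarith
  rw [← sub_nonneg]
  ring_nf
  positivity

/-- averaging over the four nodes -/
theorem four_avg (W H p q x y ξ η D e : ℝ) (hx0 : 0 < x) (hx1 : x < 1) (hy0 : 0 < y) (hy1 : y < 1)
    (hξ0 : 0 ≤ ξ) (hξ1 : ξ < 1) (hη0 : 0 ≤ η) (hη1 : η < 1)
    (hp : p + ξ = W * x) (hq : q + η = H * y) (hD : D = W * H * x * y + e)
    (F00 : D + 1 ≤ p * q + H * ξ + W * η) (F10 : D + 1 ≤ (p + 1) * q + W * η)
    (F01 : D + 1 ≤ p * (q + 1) + H * ξ) (F11 : D + 1 ≤ (p + 1) * (q + 1)) :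
    e < W * x * (1 - x) + H * y * (1 - y) := by
  have k1 := mul_le_mul_of_nonneg_left F00 (mul_nonneg hx0.le hy0.le)
  have k2 := mul_le_mul_of_nonneg_left F10 (mul_nonneg hx0.le (sub_nonneg.2 hy1.le))
  have k3 := mul_le_mul_of_nonneg_left F01 (mul_nonneg (sub_nonneg.2 hx1.le) hy0.le)
  have k4 := mul_le_mul_of_nonneg_left F11 (mul_nonneg (sub_nonneg.2 hx1.le) (sub_nonneg.2 hy1.le))
  have key : e + 1 ≤ W * x * (1 - x) + H * y * (1 - y) + (1 - x - η) * (1 - y - ξ) := by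
    have hpe : p = W * x - ξ := by linarith
    have hqe : q = H * y - η := by linarith
    subst hpe hqe hD
    nlinarith
  have hprod : (1 - x - η) * (1 - y - ξ) < 1 := by
    rcases le_total 0 (1 - x - η) with h1 | h1
    · rcases le_total 0 (1 - y - ξ) with h2 | h2
      · nlinarith
      · nlinarith [mul_nonneg h1 (neg_nonneg.2 h2)]
    · rcases le_total 0 (1 - y - ξ) with h2 | h2
      · nlinarith [mul_nonneg (neg_nonneg.2 h1) h2]
      · nlinarith [mul_nonneg (neg_nonneg.2 h1) (neg_nonneg.2 h2)]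
  linarith


/-- generic: if `E` is at least the averaged bound then type 1 domination holds -/
theorem dom1_of_avg (W H D U X Y : ℤ) (hW : 1 ≤ W) (hH : 1 ≤ H) (hN : D + U + X + Y = W * H)
    (hD : 0 < D) (hU : 0 < U) (hX : 0 ≤ X) (hY : 0 ≤ Y)
    (hE : W * (D + X) * (U + Y) + H * (D + Y) * (U + X) ≤ W * H * (D * U - X * Y)) :
    Dom1 W H D U X Y := by
  have hWpos : 0 < W := by linarith
  have hHpos : 0 < H := by linarith
  set p := (D + X) / H with hp
  set q := (D + Y) / W with hq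
  have hp1 : p * H ≤ D + X := Int.ediv_mul_le _ hHpos.ne'
  have hp2 : D + X < (p + 1) * H := by
    have := Int.lt_ediv_add_one_mul_self (D + X) hHpos
    linarith
  have hq1 : q * W ≤ D + Y := Int.ediv_mul_le _ hWpos.ne'
  have hq2 : D + Y < (q + 1) * W := by
    have := Int.lt_ediv_add_one_mul_self (D + Y) hWpos
    linarith
  have hp0 : 0 ≤ p := Int.ediv_nonneg (by linarith) hHpos.le
  have hq0 : 0 ≤ q := Int.ediv_nonneg (by linarith) hWpos.le
  have hpW : p + 1 ≤ W := by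
    by_contra hcon
    push Not at hcon
    have : W * H ≤ p * H := mul_le_mul_of_nonneg_right (by linarith) hHpos.le
    linarith
  have hqH : q + 1 ≤ H := by
    by_contra hcon
    push Not at hcon
    have : H * W ≤ q * W := mul_le_mul_of_nonneg_right (by linarith) hWpos.le
    linarith [mul_comm H W]
  by_contra hno
  have F00 : D + 1 ≤ p * q + (D + X - p * H) + (D + Y - q * W) := by
    by_contra hc
    push Not at hc
    apply hno
    refine nodeU p q hN hp0 (by linarith) hq0 (by linarith) hp1 (by linarith) ?_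
    linarith [mul_comm q W]
  have F10 : D + 1 ≤ (p + 1) * q + (D + Y - q * W) := by
    by_contra hc
    push Not at hc
    apply hno
    refine nodeY (p + 1) q hN (by linarith) (by linarith) hq0 (by linarith) hp2.le (by linarith) ?_
    linarith [mul_comm q W]
  have F01 : D + 1 ≤ p * (q + 1) + (D + X - p * H) := by
    by_contra hc
    push Not at hc
    apply hno
    refine nodeX p (q + 1) hN hp0 (by linarith) (by linarith) (by linarith) hp1 (by linarith) ?_
    linarith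
  have F11 : D + 1 ≤ (p + 1) * (q + 1) := by
    by_contra hc
    push Not at hc
    apply hno
    exact nodeD (p + 1) (q + 1) hN (by linarith) (by linarith) (by linarith) (by linarith) hp2.le
      (by linarith) (by linarith)
  have rW : (0 : ℝ) < (W : ℝ) := by exact_mod_cast hWpos
  have rH : (0 : ℝ) < (H : ℝ) := by exact_mod_cast hHpos
  have rD : (0 : ℝ) < (D : ℝ) := by exact_mod_cast hD
  have rU : (0 : ℝ) < (U : ℝ) := by exact_mod_cast hU
  have rX : (0 : ℝ) ≤ (X : ℝ) := by exact_mod_cast hX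
  have rY : (0 : ℝ) ≤ (Y : ℝ) := by exact_mod_cast hY
  have rN : (D : ℝ) + U + X + Y = W * H := by exact_mod_cast hN
  have rNpos : (0 : ℝ) < (W : ℝ) * H := mul_pos rW rH
  have rp1 : (p : ℝ) * H ≤ D + X := by exact_mod_cast hp1
  have rp2 : (D : ℝ) + X < (p + 1) * H := by exact_mod_cast hp2
  have rq1 : (q : ℝ) * W ≤ D + Y := by exact_mod_cast hq1
  have rq2 : (D : ℝ) + Y < (q + 1) * W := by exact_mod_cast hq2
  have rF00 : (D : ℝ) + 1 ≤ p * q + (D + X - p * H) + (D + Y - q * W) := by exact_mod_cast F00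
  have rF10 : (D : ℝ) + 1 ≤ (p + 1) * q + (D + Y - q * W) := by exact_mod_cast F10
  have rF01 : (D : ℝ) + 1 ≤ p * (q + 1) + (D + X - p * H) := by exact_mod_cast F01
  have rF11 : (D : ℝ) + 1 ≤ (p + 1) * (q + 1) := by exact_mod_cast F11
  have rE : (W : ℝ) * (D + X) * (U + Y) + H * (D + Y) * (U + X) ≤ W * H * (D * U - X * Y) := by
    exact_mod_cast hE
  have hxx : (D : ℝ) + X = W * H * ((D + X) / (W * H)) := by field_simp
  have hyy : (D : ℝ) + Y = W * H * ((D + Y) / (W * H)) := by field_simp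
  set x : ℝ := ((D : ℝ) + X) / (W * H) with hx
  set y : ℝ := ((D : ℝ) + Y) / (W * H) with hy
  have hx0 : 0 < x := div_pos (by linarith) rNpos
  have hy0 : 0 < y := div_pos (by linarith) rNpos
  have hx1 : x < 1 := by
    rw [hx, div_lt_one rNpos]; linarith
  have hy1 : y < 1 := by
    rw [hy, div_lt_one rNpos]; linarith
  have hξ0 : 0 ≤ W * x - p := by
    have : (p : ℝ) * H ≤ (W * x) * H := by linarith
    linarith [le_of_mul_le_mul_right this rH]
  have hξ1 : W * x - p < 1 := by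
    have : (W * x) * H < ((p : ℝ) + 1) * H := by linarith
    linarith [lt_of_mul_lt_mul_right this rH.le]
  have hη0 : 0 ≤ H * y - q := by
    have : (q : ℝ) * W ≤ (H * y) * W := by linarith
    linarith [le_of_mul_le_mul_right this rW]
  have hη1 : H * y - q < 1 := by
    have : (H * y) * W < ((q : ℝ) + 1) * W := by linarith
    linarith [lt_of_mul_lt_mul_right this rW.le]
  have main := four_avg W H p q x y (W * x - p) (H * y - q) D (D - W * H * x * y) hx0 hx1 hy0 hy1
    hξ0 hξ1 hη0 hη1 (by ring) (by ring) (by ring) (by linarith) (by linarith) (by linarith) rF11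
  -- lower bound for the excess
  have hUY : (U : ℝ) + Y = W * H * (1 - x) := by linarith
  have hUX : (U : ℝ) + X = W * H * (1 - y) := by linarith
  have hEE : (D : ℝ) * U - X * Y = W * H * (D - W * H * x * y) := by
    have e1 : (D : ℝ) * U - X * Y = D * (D + U + X + Y) - (D + X) * (D + Y) := by ring
    rw [e1, rN, hxx, hyy]; ring
  rw [hxx, hyy, hUY, hUX, hEE] at rE
  have h2 : (W * H : ℝ) ^ 2 * (W * x * (1 - x) + H * y * (1 - y)) ≤
      (W * H : ℝ) ^ 2 * (D - W * H * x * y) := by nlinarith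
  have h3 := le_of_mul_le_mul_left h2 (by positivity)
  linarith


/-- four blocks with unit ends -/
theorem four_unit (s t u v : ℤ) (hs : 1 ≤ s) (ht : 1 ≤ t) (hu : 1 ≤ u) (hv : 1 ≤ v) :
    Dom1 (s + t + 2) (u + v + 2) (s * v + (s + t + u + v + 1)) (t * u + (s + t + u + v + 1))
      (1 + t * v) (1 + s * u) := by
  have k1 : 0 ≤ s * v := mul_nonneg (by linarith) (by linarith)
  have k2 : 0 ≤ t * u := mul_nonneg (by linarith) (by linarith)
  have k3 : 0 ≤ t * v := mul_nonneg (by linarith) (by linarith)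
  have k4 : 0 ≤ s * u := mul_nonneg (by linarith) (by linarith)
  exact dom1_of_avg _ _ _ _ _ _ (by linarith) (by linarith) (by ring) (by linarith) (by linarith)
    (by linarith) (by linarith) (four_poly s t u v hs ht hu hv)

/-- four blocks `X, Y, X, Y` with positive sizes: type 1 -/
theorem four_pos (w1 w2 w3 w4 h1 h2 h3 h4 : ℤ) (p1 : 1 ≤ w1) (p2 : 1 ≤ w2) (p3 : 1 ≤ w3)
    (p4 : 1 ≤ w4) (q1 : 1 ≤ h1) (q2 : 1 ≤ h2) (q3 : 1 ≤ h3) (q4 : 1 ≤ h4) :
    Dom1 (w1 + w2 + w3 + w4) (h1 + h2 + h3 + h4) (w1 * (h2 + h3 + h4) + w2 * (h3 + h4) + w3 * h4)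
      (w2 * h1 + w3 * (h1 + h2) + w4 * (h1 + h2 + h3)) (w1 * h1 + w3 * h3) (w2 * h2 + w4 * h4) := by
  obtain ⟨a, b, ha0, haW, hb0, hbH, hD, hU, hX, hY⟩ := four_unit w2 w3 h2 h3 p2 p3 q2 q3
  have k3 : 0 ≤ w3 * h3 := mul_nonneg (by linarith) (by linarith)
  have k4 : 0 ≤ w2 * h2 := mul_nonneg (by linarith) (by linarith)
  have a1 : 1 ≤ a := by
    by_contra hc
    have : a = 0 := by linarith
    rw [this] at hX; linarith
  have b1 : 1 ≤ b := by
    by_contra hc
    have : b = 0 := by linarith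
    rw [this] at hY; linarith
  have a2 : 1 ≤ w2 + w3 + 2 - a := by
    by_contra hc
    have : w2 + w3 + 2 - a = 0 := by linarith
    rw [this] at hY; linarith
  have b2 : 1 ≤ h2 + h3 + 2 - b := by
    by_contra hc
    have : h2 + h3 + 2 - b = 0 := by linarith
    rw [this] at hX; linarith
  refine ⟨a + (w1 - 1), b + (h4 - 1), by linarith, by linarith, by linarith, by linarith, ?_, ?_,
    ?_, ?_⟩
  · have e1 : a * (h4 - 1) ≤ (w2 + w3 + 1) * (h4 - 1) :=
      mul_le_mul_of_nonneg_right (by linarith) (by linarith)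
    have e2 : b * (w1 - 1) ≤ (h2 + h3 + 1) * (w1 - 1) :=
      mul_le_mul_of_nonneg_right (by linarith) (by linarith)
    linarith
  · have e : w1 + w2 + w3 + w4 - (a + (w1 - 1)) = (w2 + w3 + 2 - a) + (w4 - 1) := by ring
    have e' : h1 + h2 + h3 + h4 - (b + (h4 - 1)) = (h2 + h3 + 2 - b) + (h1 - 1) := by ring
    rw [e, e']
    have e1 : (w2 + w3 + 2 - a) * (h1 - 1) ≤ (w2 + w3 + 1) * (h1 - 1) :=
      mul_le_mul_of_nonneg_right (by linarith) (by linarith)
    have e2 : (h2 + h3 + 2 - b) * (w4 - 1) ≤ (h2 + h3 + 1) * (w4 - 1) :=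
      mul_le_mul_of_nonneg_right (by linarith) (by linarith)
    linarith
  · have e' : h1 + h2 + h3 + h4 - (b + (h4 - 1)) = (h2 + h3 + 2 - b) + (h1 - 1) := by ring
    rw [e']
    have e1 : 1 * (h1 - 1) ≤ a * (h1 - 1) :=
      mul_le_mul_of_nonneg_right (by linarith) (by linarith)
    have e2 : 1 * (w1 - 1) ≤ (h2 + h3 + 2 - b) * (w1 - 1) :=
      mul_le_mul_of_nonneg_right (by linarith) (by linarith)
    linarith
  · have e : w1 + w2 + w3 + w4 - (a + (w1 - 1)) = (w2 + w3 + 2 - a) + (w4 - 1) := by ring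
    rw [e]
    have e1 : 1 * (h4 - 1) ≤ (w2 + w3 + 2 - a) * (h4 - 1) :=
      mul_le_mul_of_nonneg_right (by linarith) (by linarith)
    have e2 : 1 * (w4 - 1) ≤ b * (w4 - 1) :=
      mul_le_mul_of_nonneg_right (by linarith) (by linarith)
    linarith

/-- three blocks `X, Y, X` with sizes `≥ 0` -/
theorem three (w1 w2 w3 h1 h2 h3 : ℤ) (p1 : 0 ≤ w1) (p2 : 0 ≤ w2) (p3 : 0 ≤ w3)
    (q1 : 0 ≤ h1) (q2 : 0 ≤ h2) (q3 : 0 ≤ h3) :
    Dom1 (w1 + w2 + w3) (h1 + h2 + h3) (w1 * (h2 + h3) + w2 * h3) (w2 * h1 + w3 * (h1 + h2))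
      (w1 * h1 + w3 * h3) (w2 * h2) ∨
    Dom1 (w1 + w2 + w3) (h1 + h2 + h3) (w1 * (h2 + h3) + w2 * h3) (w2 * h1 + w3 * (h1 + h2))
      (w2 * h2) (w1 * h1 + w3 * h3) := by
  have m11 : 0 ≤ w1 * h1 := mul_nonneg p1 q1
  have m12 : 0 ≤ w1 * h2 := mul_nonneg p1 q2
  have m13 : 0 ≤ w1 * h3 := mul_nonneg p1 q3
  have m21 : 0 ≤ w2 * h1 := mul_nonneg p2 q1
  have m22 : 0 ≤ w2 * h2 := mul_nonneg p2 q2
  have m23 : 0 ≤ w2 * h3 := mul_nonneg p2 q3
  have m31 : 0 ≤ w3 * h1 := mul_nonneg p3 q1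
  have m32 : 0 ≤ w3 * h2 := mul_nonneg p3 q2
  have m33 : 0 ≤ w3 * h3 := mul_nonneg p3 q3
  by_cases z1 : w1 * h1 = 0
  · right
    refine ⟨w1 + w2, h3, by linarith, by linarith, by linarith, by linarith, ?_, ?_, ?_, ?_⟩
    all_goals linarith
  by_cases z3 : w3 * h3 = 0
  · left
    refine ⟨w1, h2 + h3, by linarith, by linarith, by linarith, by linarith, ?_, ?_, ?_, ?_⟩
    all_goals linarith
  by_cases z2 : w2 * h2 = 0
  · left
    refine ⟨w1 + w2 + w3, 0, by linarith, by linarith, by linarith, by linarith, ?_, ?_, ?_, ?_⟩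
    all_goals linarith
  have r1 : 1 ≤ w1 := by
    rcases p1.eq_or_lt with h | h
    · exact absurd (by rw [← h, zero_mul]) z1
    · exact h
  have r1' : 1 ≤ h1 := by
    rcases q1.eq_or_lt with h | h
    · exact absurd (by rw [← h, mul_zero]) z1
    · exact h
  have r2 : 1 ≤ w2 := by
    rcases p2.eq_or_lt with h | h
    · exact absurd (by rw [← h, zero_mul]) z2
    · exact h
  have r2' : 1 ≤ h2 := by
    rcases q2.eq_or_lt with h | h
    · exact absurd (by rw [← h, mul_zero]) z2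
    · exact h
  have r3 : 1 ≤ w3 := by
    rcases p3.eq_or_lt with h | h
    · exact absurd (by rw [← h, zero_mul]) z3
    · exact h
  have r3' : 1 ≤ h3 := by
    rcases q3.eq_or_lt with h | h
    · exact absurd (by rw [← h, mul_zero]) z3
    · exact h
  rcases three_pos w1 w2 w3 h1 h2 h3 r1 r2 r3 r1' r2' r3' with h | h
  · exact Or.inl h
  · exact Or.inr h.transpose

end DKWTwo
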