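import Pool.Agent.Lib.MP_f05b2f_co.Lex
import Pool.Agent.Lib.MP_f05b2f_co.Seq

/-!
Two chains: upper bound for `L_σ(α) ∩ R_σ(β)` by nodes, and the sequences of column heights.
-/

open Finset
open scoped FinsetFamily

namespace DKW

theorem card_lt {n : ℕ} (k : Fin n → ℕ) (i : Fin n) (a : ℕ) (ha : a ≤ k i) :
    #(univ.filter (fun x : Box k => (x i : ℕ) < a)) = a * ∏ j ∈ univ.erase i, k j := by
  classical
  have h1 : univ.filter (fun x : Box k => (x i : ℕ) < a) =
      Fintype.piFinset (fun j => univ.filter (fun t : Fin (k j) => j = i → (t : ℕ) < a)) := by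
    ext x
    rw [Fintype.mem_piFinset]
    simp only [Finset.mem_filter, Finset.mem_univ, true_and]
    constructor
    · intro h j hj; subst hj; exact h
    · intro h; exact h i rfl
  rw [h1, Fintype.card_piFinset, ← Finset.mul_prod_erase univ _ (Finset.mem_univ i)]
  congr 1
  · have : univ.filter (fun t : Fin (k i) => i = i → (t : ℕ) < a) =
        univ.filter (fun t : Fin (k i) => (t : ℕ) < a) := by
      ext t; simp
    rw [this, Fin.card_filter_val_lt]
    omega
  · refine Finset.prod_congr rfl (fun j hj => ?_)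
    have hne : j ≠ i := Finset.ne_of_mem_erase hj
    have : univ.filter (fun t : Fin (k j) => j = i → (t : ℕ) < a) = univ := by
      ext t; simp [hne]
    rw [this, Finset.card_univ, Fintype.card_fin]

theorem card_lt_lt {n : ℕ} (k : Fin n → ℕ) (i i' : Fin n) (hii : i ≠ i') (a b : ℕ) (ha : a ≤ k i)
    (hb : b ≤ k i') :
    #(univ.filter (fun x : Box k => (x i : ℕ) < a ∧ (x i' : ℕ) < b)) =
      a * b * ∏ j ∈ (univ.erase i).erase i', k j := by
  classical
  have h1 : univ.filter (fun x : Box k => (x i : ℕ) < a ∧ (x i' : ℕ) < b) =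
      Fintype.piFinset (fun j => univ.filter
        (fun t : Fin (k j) => (j = i → (t : ℕ) < a) ∧ (j = i' → (t : ℕ) < b))) := by
    ext x
    rw [Fintype.mem_piFinset]
    simp only [Finset.mem_filter, Finset.mem_univ, true_and]
    constructor
    · intro h j
      exact ⟨fun hj => by subst hj; exact h.1, fun hj => by subst hj; exact h.2⟩
    · intro h; exact ⟨(h i).1 rfl, (h i').2 rfl⟩
  rw [h1, Fintype.card_piFinset, ← Finset.mul_prod_erase univ _ (Finset.mem_univ i),
    ← Finset.mul_prod_erase (univ.erase i) _ (Finset.mem_erase.2 ⟨hii.symm, Finset.mem_univ i'⟩),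
    ← mul_assoc]
  congr 1
  · congr 1
    · have : univ.filter (fun t : Fin (k i) => (i = i → (t : ℕ) < a) ∧ (i = i' → (t : ℕ) < b)) =
          univ.filter (fun t : Fin (k i) => (t : ℕ) < a) := by
        ext t; simp [hii]
      rw [this, Fin.card_filter_val_lt]
      omega
    · have : univ.filter (fun t : Fin (k i') => (i' = i → (t : ℕ) < a) ∧ (i' = i' → (t : ℕ) < b)) =
          univ.filter (fun t : Fin (k i') => (t : ℕ) < b) := by
        ext t; simp [hii.symm]
      rw [this, Fin.card_filter_val_lt]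
      omega
  · refine Finset.prod_congr rfl (fun j hj => ?_)
    have hne' : j ≠ i' := Finset.ne_of_mem_erase hj
    have hne : j ≠ i := Finset.ne_of_mem_erase (Finset.mem_of_mem_erase hj)
    have : univ.filter (fun t : Fin (k j) => (j = i → (t : ℕ) < a) ∧ (j = i' → (t : ℕ) < b)) =
        univ := by
      ext t; simp [hne, hne']
    rw [this, Finset.card_univ, Fintype.card_fin]

section two

variable (k : Fin 2 → ℕ) (σ : Equiv.Perm (Fin 2))

theorem erase0 : (univ : Finset (Fin 2)).erase (σ 0) = {σ 1} := by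
  ext j
  obtain ⟨i, rfl⟩ := σ.surjective j
  rw [Finset.mem_erase, Finset.mem_singleton]
  simp only [Finset.mem_univ, and_true, ne_eq, EmbeddingLike.apply_eq_iff_eq]
  omega

theorem erase1 : (univ : Finset (Fin 2)).erase (σ 1) = {σ 0} := by
  ext j
  obtain ⟨i, rfl⟩ := σ.surjective j
  rw [Finset.mem_erase, Finset.mem_singleton]
  simp only [Finset.mem_univ, and_true, ne_eq, EmbeddingLike.apply_eq_iff_eq]
  omega

theorem card_box : Fintype.card (Box k) = k (σ 0) * k (σ 1) := by
  have h := card_lt k (σ 0) (k (σ 0)) le_rfl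
  rw [erase0, Finset.prod_singleton] at h
  rw [← h, ← Finset.card_univ]
  congr 1
  ext x; simp

theorem card_L_ge (α a : ℕ) (hα : α ≤ Fintype.card (Box k)) (ha : a ≤ k (σ 0)) :
    #((L k σ α).filter (fun x => a ≤ (x (σ 0) : ℕ))) ≤ α - a * k (σ 1) := by
  classical
  rcases ((L k σ α).filter (fun x => a ≤ (x (σ 0) : ℕ))).eq_empty_or_nonempty with h | ⟨x, hx⟩
  · rw [h]; simp
  · rw [Finset.mem_filter] at hx
    have hs : univ.filter (fun y : Box k => (y (σ 0) : ℕ) < a) ⊆ L k σ α := by
      intro y hy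
      simp only [Finset.mem_filter, Finset.mem_univ, true_and] at hy
      refine initSeg_closed (good_lex σ) hx.1 ⟨0, fun j' hj' => absurd hj' (Fin.not_lt_zero j'), ?_⟩
      exact Fin.lt_def.2 (lt_of_lt_of_le hy hx.2)
    have hc := card_lt k (σ 0) a ha
    rw [erase0, Finset.prod_singleton] at hc
    have hd : Disjoint (univ.filter (fun y : Box k => (y (σ 0) : ℕ) < a))
        ((L k σ α).filter (fun x => a ≤ (x (σ 0) : ℕ))) := by
      rw [Finset.disjoint_left]
      intro y hy hy'
      simp only [Finset.mem_filter, Finset.mem_univ, true_and] at hy hy'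
      omega
    have h1 := Finset.card_le_card (Finset.union_subset hs
      (Finset.filter_subset (fun x => a ≤ (x (σ 0) : ℕ)) (L k σ α)))
    rw [Finset.card_union_of_disjoint hd, hc] at h1
    have h2 : #(L k σ α) = α := card_initSeg (good_lex σ) hα
    omega

theorem card_R_ge (β b : ℕ) (hβ : β ≤ Fintype.card (Box k)) (hb : b ≤ k (σ 1)) :
    #((R k σ β).filter (fun x => b ≤ (x (σ 1) : ℕ))) ≤ β - b * k (σ 0) := by
  classical
  rcases ((R k σ β).filter (fun x => b ≤ (x (σ 1) : ℕ))).eq_empty_or_nonempty with h | ⟨x, hx⟩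
  · rw [h]; simp
  · rw [Finset.mem_filter] at hx
    have hs : univ.filter (fun y : Box k => (y (σ 1) : ℕ) < b) ⊆ R k σ β := by
      intro y hy
      simp only [Finset.mem_filter, Finset.mem_univ, true_and] at hy
      refine initSeg_closed (good_rev σ) hx.1 ⟨1, fun j' hj' => ?_, ?_⟩
      · exfalso; omega
      · exact Fin.lt_def.2 (lt_of_lt_of_le hy hx.2)
    have hc := card_lt k (σ 1) b hb
    rw [erase1, Finset.prod_singleton] at hc
    have hd : Disjoint (univ.filter (fun y : Box k => (y (σ 1) : ℕ) < b))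
        ((R k σ β).filter (fun x => b ≤ (x (σ 1) : ℕ))) := by
      rw [Finset.disjoint_left]
      intro y hy hy'
      simp only [Finset.mem_filter, Finset.mem_univ, true_and] at hy hy'
      omega
    have h1 := Finset.card_le_card (Finset.union_subset hs
      (Finset.filter_subset (fun x => b ≤ (x (σ 1) : ℕ)) (R k σ β)))
    rw [Finset.card_union_of_disjoint hd, hc] at h1
    have h2 : #(R k σ β) = β := card_initSeg (good_rev σ) hβ
    omega

theorem card_inter_le (α β a b : ℕ) (hα : α ≤ Fintype.card (Box k)) (hβ : β ≤ Fintype.card (Box k))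
    (ha : a ≤ k (σ 0)) (hb : b ≤ k (σ 1)) :
    #(L k σ α ∩ R k σ β) ≤ a * b + (α - a * k (σ 1)) + (β - b * k (σ 0)) := by
  classical
  have hne : σ 0 ≠ σ 1 := fun h => by simpa using σ.injective h
  have hsub : L k σ α ∩ R k σ β ⊆
      (univ.filter (fun x : Box k => (x (σ 0) : ℕ) < a ∧ (x (σ 1) : ℕ) < b) ∪
        (L k σ α).filter (fun x => a ≤ (x (σ 0) : ℕ))) ∪
        (R k σ β).filter (fun x => b ≤ (x (σ 1) : ℕ)) := by
    intro x hx
    rw [Finset.mem_inter] at hx
    simp only [Finset.mem_union, Finset.mem_filter, Finset.mem_univ, true_and]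
    by_cases h1 : a ≤ (x (σ 0) : ℕ)
    · exact Or.inl (Or.inr ⟨hx.1, h1⟩)
    · by_cases h2 : b ≤ (x (σ 1) : ℕ)
      · exact Or.inr ⟨hx.2, h2⟩
      · exact Or.inl (Or.inl ⟨by omega, by omega⟩)
  have h1 := (Finset.card_le_card hsub).trans (Finset.card_union_le _ _)
  have h2 := Finset.card_union_le
    (univ.filter (fun x : Box k => (x (σ 0) : ℕ) < a ∧ (x (σ 1) : ℕ) < b))
    ((L k σ α).filter (fun x => a ≤ (x (σ 0) : ℕ)))
  have h3 := card_lt_lt k (σ 0) (σ 1) hne a b ha hb
  have h4 : ((univ : Finset (Fin 2)).erase (σ 0)).erase (σ 1) = ∅ := by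
    rw [erase0]; simp
  rw [h4, Finset.prod_empty, mul_one] at h3
  have h5 := card_L_ge k σ α a hα ha
  have h6 := card_R_ge k σ β b hβ hb
  omega

end two

end DKW
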