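import Pool.Agent.Lib.MP_f05b2f_co.Node

/-!
Two chains: every pair of order ideals is dominated by an independent pair, hence
the theorem for two chains.
-/

open Finset
open scoped FinsetFamily

namespace DKW

variable (k : Fin 2 → ℕ)

/-- height of the column `x 0 = j` of `A` -/
def col (A : Finset (Box k)) (j : ℕ) : ℕ := #(A.filter (fun x => (x 0 : ℕ) = j))

variable {k}

theorem sum_col (A : Finset (Box k)) : ∑ j ∈ range (k 0), col k A j = #A := by
  rw [Finset.card_eq_sum_card_fiberwise (f := fun x : Box k => (x 0 : ℕ)) (t := range (k 0))]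
  · rfl
  · intro x _
    exact Finset.mem_coe.2 (Finset.mem_range.2 (x 0).isLt)

theorem col_le (A : Finset (Box k)) (j : ℕ) : col k A j ≤ k 1 := by
  classical
  have h : #(A.filter (fun x => (x 0 : ℕ) = j)) ≤ #(univ : Finset (Fin (k 1))) := by
    refine Finset.card_le_card_of_injOn (fun x => x 1) (fun x _ => Finset.mem_coe.2 (Finset.mem_univ _)) ?_
    intro x hx y hy hxy
    rw [Finset.mem_coe, Finset.mem_filter] at hx hy
    funext i
    match i with
    | 0 => exact Fin.ext (hx.2.trans hy.2.symm)
    | 1 => exact hxy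
  simpa [col] using h

theorem col_anti {A : Finset (Box k)} (hA : IsDown A) {i j : ℕ} (hij : i ≤ j) (hj : j < k 0) :
    col k A j ≤ col k A i := by
  classical
  refine Finset.card_le_card_of_injOn
    (fun x => Function.update x 0 (⟨i, by omega⟩ : Fin (k 0))) ?_ ?_
  · intro x hx
    rw [Finset.mem_coe, Finset.mem_filter] at hx ⊢
    refine ⟨hA x hx.1 _ ?_, by simp⟩
    intro l
    match l with
    | 0 =>
      show (Function.update x 0 (⟨i, by omega⟩ : Fin (k 0))) 0 ≤ x 0
      rw [Function.update_self]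
      exact Fin.le_def.2 (by rw [hx.2]; exact hij)
    | 1 => simp
  · intro x hx y hy hxy
    rw [Finset.mem_coe, Finset.mem_filter] at hx hy
    funext l
    match l with
    | 0 => exact Fin.ext (hx.2.trans hy.2.symm)
    | 1 =>
      have := congrFun hxy 1
      simpa using this

theorem col_inter {A B : Finset (Box k)} (hA : IsDown A) (hB : IsDown B) (j : ℕ) :
    col k (A ∩ B) j = min (col k A j) (col k B j) := by
  classical
  have hfi : (A ∩ B).filter (fun x => (x 0 : ℕ) = j) =
      A.filter (fun x => (x 0 : ℕ) = j) ∩ B.filter (fun x => (x 0 : ℕ) = j) := by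
    ext x
    simp only [Finset.mem_filter, Finset.mem_inter]
    tauto
  by_cases h : A.filter (fun x => (x 0 : ℕ) = j) ⊆ B.filter (fun x => (x 0 : ℕ) = j)
  · rw [col, hfi, Finset.inter_eq_left.2 h]
    exact (min_eq_left (Finset.card_le_card h)).symm
  · have h' : B.filter (fun x => (x 0 : ℕ) = j) ⊆ A.filter (fun x => (x 0 : ℕ) = j) := by
      rw [Finset.not_subset] at h
      obtain ⟨x, hx, hxB⟩ := h
      intro y hy
      rw [Finset.mem_filter] at hx hy hxB ⊢
      refine ⟨?_, hy.2⟩
      by_contra hyA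
      have hxB' : x ∉ B := fun hh => hxB ⟨hh, hx.2⟩
      have e0 : x 0 = y 0 := Fin.ext (hx.2.trans hy.2.symm)
      rcases le_total (x 1) (y 1) with hle | hle
      · apply hxB'
        refine hB y hy.1 x ?_
        intro l
        match l with
        | 0 => exact e0.le
        | 1 => exact hle
      · apply hyA
        refine hA x hx.1 y ?_
        intro l
        match l with
        | 0 => exact e0.ge
        | 1 => exact hle
    rw [col, hfi, Finset.inter_eq_right.2 h']
    exact (min_eq_right (Finset.card_le_card h')).symm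

open DKWTwo in
theorem dom_of_ideals {A B : Finset (Box k)} (hA : IsDown A) (hB : IsDown B) :
    Dom (k 0) (k 1) (#(A ∩ B)) ((k 0 : ℤ) * k 1 - #A - #B + #(A ∩ B)) (#A - #(A ∩ B))
      (#B - #(A ∩ B)) := by
  have h := two_dim (k 0) (k 1) (fun j => (col k A j : ℤ)) (fun j => (col k B j : ℤ))
    (by positivity)
    (fun j _ => ⟨by positivity, by exact_mod_cast col_le A j⟩)
    (fun j _ => ⟨by positivity, by exact_mod_cast col_le B j⟩)
    (fun i j hij hj => by exact_mod_cast col_anti hA hij hj)
    (fun i j hij hj => by exact_mod_cast col_anti hB hij hj)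
  have eA : ∑ j ∈ range (k 0), (col k A j : ℤ) = #A := by exact_mod_cast sum_col A
  have eB : ∑ j ∈ range (k 0), (col k B j : ℤ) = #B := by exact_mod_cast sum_col B
  have eD : ∑ j ∈ range (k 0), min (col k A j : ℤ) (col k B j) = #(A ∩ B) := by
    rw [← sum_col (A ∩ B)]
    push_cast
    refine Finset.sum_congr rfl (fun j _ => ?_)
    rw [col_inter hA hB]
    push_cast
    rfl
  have eM : ∑ j ∈ range (k 0), max (col k A j : ℤ) (col k B j) = #A + #B - #(A ∩ B) := by
    rw [← eA, ← eB, ← eD, ← Finset.sum_add_distrib, ← Finset.sum_sub_distrib]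
    refine Finset.sum_congr rfl (fun j _ => ?_)
    linarith [min_add_max (col k A j : ℤ) (col k B j)]
  refine Dom.congr h rfl rfl eD ?_ ?_ ?_
  · rw [Finset.sum_sub_distrib, eM, Finset.sum_const, Finset.card_range, nsmul_eq_mul]
    ring
  · rw [Finset.sum_sub_distrib, eA, eD]
  · rw [Finset.sum_sub_distrib, eB, eD]

/-- Some `L_σ(α) ∩ R_σ(β)` is at most as large as the intersection of any given pair of ideals. -/
theorem exists_perm_le {A B : Finset (Box k)} (hA : IsDown A) (hB : IsDown B) :
    ∃ σ : Equiv.Perm (Fin 2), #(L k σ #A ∩ R k σ #B) ≤ #(A ∩ B) := by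
  have hcA : #A ≤ Fintype.card (Box k) := Finset.card_le_univ A
  have hcB : #B ≤ Fintype.card (Box k) := Finset.card_le_univ B
  rcases dom_of_ideals hA hB with ⟨a, b, ha0, haW, hb0, hbH, h1, h2, h3, h4⟩ |
    ⟨a, b, ha0, haW, hb0, hbH, h1, h2, h3, h4⟩
  · obtain ⟨a', rfl⟩ := Int.eq_ofNat_of_zero_le ha0
    obtain ⟨b', rfl⟩ := Int.eq_ofNat_of_zero_le hb0
    refine ⟨1, ?_⟩
    have h := card_inter_le k 1 #A #B a' b' hcA hcB (by simpa using haW) (by simpa using hbH)
    simp only [Equiv.Perm.coe_one, id_eq] at h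
    refine h.trans ?_
    have g1 : a' * b' ≤ #(A ∩ B) := by exact_mod_cast h1
    have g2 : a' * b' + #A ≤ #(A ∩ B) + a' * k 1 := by
      zify; linarith
    have g3 : a' * b' + #B ≤ #(A ∩ B) + b' * k 0 := by
      zify; linarith
    have g4 : a' * b' + #A + #B ≤ #(A ∩ B) + a' * k 1 + b' * k 0 := by
      zify; linarith
    omega
  · obtain ⟨a', rfl⟩ := Int.eq_ofNat_of_zero_le ha0
    obtain ⟨b', rfl⟩ := Int.eq_ofNat_of_zero_le hb0
    refine ⟨Equiv.swap 0 1, ?_⟩
    have h := card_inter_le k (Equiv.swap 0 1) #A #B b' a' hcA hcB (by simpa using hbH)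
      (by simpa using haW)
    simp only [Equiv.swap_apply_left, Equiv.swap_apply_right] at h
    refine h.trans ?_
    have g1 : b' * a' ≤ #(A ∩ B) := by
      zify; linarith
    have g2 : b' * a' + #A ≤ #(A ∩ B) + b' * k 0 := by
      zify; linarith
    have g3 : b' * a' + #B ≤ #(A ∩ B) + a' * k 1 := by
      zify; linarith
    have g4 : b' * a' + #A + #B ≤ #(A ∩ B) + a' * k 1 + b' * k 0 := by
      zify; linarith
    omega

end DKW
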